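import Pool.Agent.ARC.StmtsA

/-!
# Squad ARC: data at a set of infinite places, final statements
-/

set_option autoImplicit false

namespace Pool.Agent.ARC

open scoped BigOperators
open Pool.Agent.THS Pool.Agent.ZES
open Pool.Agent.SZG (Ch Idx gam QS WX Wf Xf Mp FF Bx Row lft Zz IM)

/-- Data at an infinite place `w` of K: the vectors `x i` are, under the embedding of `w`, the
coordinates of the points `γ i` of the abelian variety `C^g / (Z^g + τ Z^g)`, γ additive and torsion;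
`r (h.y)^2 <= y.(Im τ) y` for all real y, h a nonzero integer vector. -/
structure InfData {K : Type} [Field K] [NumberField K] {g : ℕ} (x : Idx g → Ch g × Ch g → K)
    (w : NumberField.InfinitePlace K) (τ : Matrix (Fin g) (Fin g) ℂ) (γ : Idx g → Fin g → ℂ)
    (h : Fin g → ℤ) (r : ℝ) : Prop where
  siegel : Siegel τ
  add : ∀ i j, γ (i + j) = γ i + γ j
  tors : ∃ N : ℕ, 0 < N ∧ ∀ i, InLat τ (fun t => (N : ℂ) * γ i t)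
  pt : ∀ i, ∃ μ : ℂ, ∀ ab, w.embedding (x i ab) = μ * Vab τ ab.1 ab.2 (γ i)
  h0 : h ≠ 0
  r0 : 0 ≤ r
  hr : ∀ y : Fin g → ℝ, r * dt h y ^ 2 ≤ Yq τ y

/-- The theorem with the archimedean term alone. -/
def ArpStatement : Prop :=
  ∀ (g : ℕ) (σ : ℝ), ∃ n : ℕ, ∀ l : ℕ, l.Prime → Odd l → n < l → ∀ d : ℕ, ∃ B : ℕ,
    ∀ (K : Type) [Field K] [NumberField K], Module.finrank ℚ K ≤ d →
    ∀ (φ : K →+* ℂ) (τ : Matrix (Fin g) (Fin g) ℂ), Siegel τ →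
    ∀ z : Fin g → ℂ, (∃ N : ℕ, 0 < N ∧ InLat τ (fun i => (N : ℂ) * z i)) →
    ∀ x : Idx g → Ch g × Ch g → K, (∀ i, x i ≠ 0) →
    (∀ i, ∃ μ : ℂ, ∀ ab, φ (x i ab) = μ * Vab τ ab.1 ab.2 (gam τ z l i)) →
    ∀ (Φ : Finset (NumberField.InfinitePlace K))
      (tw : NumberField.InfinitePlace K → Matrix (Fin g) (Fin g) ℂ)
      (gw : NumberField.InfinitePlace K → Idx g → Fin g → ℂ)
      (hw : NumberField.InfinitePlace K → Fin g → ℤ) (rw : NumberField.InfinitePlace K → ℝ),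
    (∀ w ∈ Φ, InfData x w (tw w) (gw w) (hw w) (rw w)) →
    Real.log (Height.mulHeight (x 0)) ≤ σ * ∑ w ∈ Φ, rw w →
    (∃ M : ℕ, 1 ≤ M ∧ M ≤ B ∧ InLat τ (fun i => (M : ℂ) * z i)) ∨
    ∃ W : Submodule ℂ (Fin g → ℂ), W ≠ ⊥ ∧ W ≠ ⊤ ∧ SubAV τ W ∧
      (∃ M : ℕ, 1 ≤ M ∧ M ≤ B ∧ ∃ u ∈ W, InLat τ (M • z - u)) ∧
      ∃ k : ℕ, 1 ≤ k ∧ k ≤ B ∧ ∀ v : Fin g → ℂ,
        (∀ f ∈ RR τ k, (∀ w ∈ W, f w = 0) → fderiv ℂ f 0 v = 0) → v ∈ W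

/-- **The theorem.** `ZES.FinStatement` with the archimedean term. -/
def ArqStatement : Prop :=
  ∀ (g : ℕ) (σ : ℝ) (G : ℕ → ℕ), ∃ l : ℕ, l.Prime ∧ Odd l ∧ ∀ c d : ℕ, 0 < c → ∃ B : ℕ,
    ∀ (K : Type) [Field K] [NumberField K], Module.finrank ℚ K ≤ d →
    ∀ (φ : K →+* ℂ) (τ : Matrix (Fin g) (Fin g) ℂ), Siegel τ →
    ∀ z : Fin g → ℂ, (∃ N : ℕ, 0 < N ∧ InLat τ (fun i => (N : ℂ) * z i)) →
    ∀ (S T : Finset (NumberField.FinitePlace K)) (ev t m : NumberField.FinitePlace K → ℕ)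
      (Φ : Finset (NumberField.InfinitePlace K))
      (tw : NumberField.InfinitePlace K → Matrix (Fin g) (Fin g) ℂ)
      (gw : NumberField.InfinitePlace K → Idx g → Fin g → ℂ)
      (hw : NumberField.InfinitePlace K → Fin g → ℤ) (rw : NumberField.InfinitePlace K → ℝ)
      (x : Idx g → Ch g × Ch g → K),
    (∀ i : Idx g, (S.Nonempty ∨ Φ.Nonempty) ∨ i.2 = 0 → x i ≠ 0 ∧
      ∃ μ : ℂ, ∀ ab, φ (x i ab) = μ * Vab τ ab.1 ab.2 (gam τ z l i)) →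
    (∀ v ∈ T, v.val 2 = 1 ∧ ∀ k : ℤ, PC v.val (x (c * k, 0, 0)) (x 0)) →
    (∀ v ∈ S, v.val 2 = 1 ∧ 1 ≤ ev v ∧ 1 ≤ t v ∧ 1 ≤ m v ∧ m v ≤ G (t v) ∧
      (∀ k : ℤ, SZG.CM v.val (x ((m v : ℤ) * k, 0, 0)) (x 0)) ∧
      ∃ p q : Fin g → ℤ, (∃ i, ¬ (l : ℤ) ∣ p i ∨ ¬ (l : ℤ) ∣ q i) ∧
        ∀ u : ℤ, SZG.TC v.val ((qv v ^ ev v)⁻¹) (x (u • ((0, p, q) : Idx g))) (x 0)) →
    (∀ w ∈ Φ, InfData x w (tw w) (gw w) (hw w) (rw w)) →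
    Real.log (Height.mulHeight (x 0))
      ≤ σ * (∑ v ∈ T, lN v + ∑ v ∈ S, (ev v : ℝ) / (t v : ℝ) * lN v + ∑ w ∈ Φ, rw w) →
    (∃ M : ℕ, 1 ≤ M ∧ M ≤ B ∧ InLat τ (fun i => (M : ℂ) * z i)) ∨
    (S.Nonempty ∨ Φ.Nonempty) ∧ ∃ W : Submodule ℂ (Fin g → ℂ), W ≠ ⊥ ∧ W ≠ ⊤ ∧ SubAV τ W ∧
      (∃ M : ℕ, 1 ≤ M ∧ M ≤ B ∧ ∃ u ∈ W, InLat τ (M • z - u)) ∧
      ∃ k : ℕ, 1 ≤ k ∧ k ≤ B ∧ ∀ v : Fin g → ℂ,
        (∀ f ∈ RR τ k, (∀ w ∈ W, f w = 0) → fderiv ℂ f 0 v = 0) → v ∈ W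

end Pool.Agent.ARC
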