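import Pool.Agent.ZES.StmtsY

/-!
# Squad ARC (MP_160b6c_nt): the archimedean place in the theorem on torsion and the Szpiro ratio

Goal: `ArcStatement` = `ZES.FinStatement` with an archimedean term `lam` in the hypothesis
`log H(x_0) <= σ (sum_T log Nv + sum_S (e/t) log Nv + lam)`, where `lam (h.y)^2 <= y.(Im tau)y` for all
real vectors y, `h <> 0` an integer vector (lam = length of the most degenerate direction at the
place φ). Everything finite is done (squads THS, SZG, ZES).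

METHOD. `Y = Im tau`. Sort the series of Theta_a by `h.n = j`: slices `sl τ a h j w`. Translation by a real
multiple of h multiplies a slice by a unimodular number, translation by an imaginary multiple gives
`|slice_j(w)| <= 2^g t0 exp(8 pi Yq y - 2 pi lam (j + h.a/2 + 2 h.y)^2)`. So at columns k with `k h.y_z`
within `1/(2 l)` of an integer, each row of the interpolation matrix is, up to `exp(- 2 pi lam L^2)`,
a combination of `2 L + 4` functions which depend only on the class of the row modulo h: the minors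
are small at the place φ. The columns can be chosen in the range k <= J because of a finite range
zero estimate (AFR, FRZ), after replacing z by a multiple c0 z (Dirichlet).

RULES. One file per row: `Pool/Agent/HelperNN_ARC/XXX.lean`, import `Pool.Agent.ARC.Stmts` (and proved
files of THS, SZG, ZES), namespace `Pool.Agent.ARC.HNN`, theorem `xxx : XxxStmt` (hypotheses: other rows
or proved rows of THS/SZG/ZES as arguments `(h : SupStmt)`, in the order of the docstring). No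
`convert`, no `congr!`, no straight double quotes.
-/

set_option autoImplicit false

namespace Pool.Agent.ARC

open scoped BigOperators
open Pool.Agent.THS Pool.Agent.ZES
open Pool.Agent.SZG (Ch Idx gam QS WX Wf Xf Mp FF Bx Row lft Zz IM)

/-! ### Definitions -/

/-- The vector `Y y`, `Y = Im tau`. -/
noncomputable def Yv {g : ℕ} (τ : Matrix (Fin g) (Fin g) ℂ) (y : Fin g → ℝ) : Fin g → ℝ :=
  fun i => ∑ j, (τ i j).im * y j

/-- The number `y.Y y`. -/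
noncomputable def Yq {g : ℕ} (τ : Matrix (Fin g) (Fin g) ℂ) (y : Fin g → ℝ) : ℝ :=
  ∑ i, ∑ j, y i * (τ i j).im * y j

/-- The product `h.y`. -/
def dt {g : ℕ} (h : Fin g → ℤ) (y : Fin g → ℝ) : ℝ := ∑ i, (h i : ℝ) * y i

/-- `max_c |Theta_c(0)|`. -/
noncomputable def t0 {g : ℕ} (τ : Matrix (Fin g) (Fin g) ℂ) : ℝ := ⨆ c : Ch g, ‖Thc τ c 0‖

/-- The slice `h.n = j` of the series of `Theta_a(2 w)`. -/
noncomputable def sl {g : ℕ} (τ : Matrix (Fin g) (Fin g) ℂ) (a : Ch g) (h : Fin g → ℤ) (j : ℤ)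
    (w : Fin g → ℂ) : ℂ :=
  ∑' n : Fin g → ℤ,
    if ∑ i, h i * n i = j then tht ((2 : ℂ) • τ) (hv a) (fun i => 2 * (2 * w i)) n else 0

/-! ### Block A: analysis -/

/-- **Row SUP** (sup bound; uses THS.TouStatement, THS.LarStatement, SZG.TdfStmt). PROOF. For `x = u + tau y`
(u, y real) put `B(x) = max_c |Theta_c(x)| exp(- 2 pi Yq y)` (the statement is for x = 2 w, whose y is
2 y). (1) `B(x + p + tau q) = B(x)` for integer vectors: TOU periods, `|factor| = exp(2 pi q.Y q +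
4 pi q.Y y)` and `Yq (y + q) = Yq y + 2 q.Y y + q.Y q`. (2) B is bounded: by (1) one may assume that all
u_i, y_i are in [0,1]; Theta_c is continuous (TDF for `2 • τ`), so bounded on a compact set.
(3) duplication `B(x)^4 <= 4^g B(2x) B(0)^3`: THS.LarStatement for K = ℂ, the usual absolute value,
`S = Thc τ · x`, `D = Thc τ · (2x)`, `Z = Thc τ · 0` exactly as in the row DBL of SZG
(`Helper91_SZG/DBL.lean`): TOU (first claim) with a = 0 at (x,x), (x,0), (0,0). `Yq (2y) = 4 Yq y`.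
(4) `b = B/B(0)` (B(0) = t0 > 0, TOU): `b(x)^4 <= 4^g b(2x)`; if `b(x)^3 > 4^g` for some x, then
`b(2x) >= b(x) (b(x)^3/4^g)`, and by induction `b(2^n x) >= b(x) (b(x)^3/4^g)^n`, unbounded. So
`b^3 <= 4^g`, `b <= 2^g`. -/
def SupStmt : Prop :=
  ∀ (g : ℕ) (τ : Matrix (Fin g) (Fin g) ℂ), Siegel τ → ∀ (a : Ch g) (w : Fin g → ℂ)
    (y : Fin g → ℝ), (∀ i, (w i).im = Yv τ y i) →
    ‖Thc τ a (fun i => 2 * w i)‖ ≤ 2 ^ g * t0 τ * Real.exp (8 * Real.pi * Yq τ y)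

/-- **Row SLS** (slices; uses THS.TbdStatement). PROOF. The terms `f n = tht (2τ) (hv a) (4 w) n` are
absolutely summable (TBD for the Siegel matrix `2 • τ`). The family `(j,n) ↦ if h.n = j then f n else 0`
on `ℤ × (Fin g → ℤ)` is absolutely summable (for each n there is exactly one j), so
`tsum` over n and j can be exchanged (`Summable.tsum_comm`, `tsum_ite_eq`); `‖sl j‖ <= sum_n ..`.
Second claim: termwise; `4 (w + s h + P)` changes the exponent `2 pi i sum (n_i + a_i/2) 4 w_i` by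
`8 pi i s (h.n + h.a/2) + 8 pi i n.P + 4 pi i a.P`, the last two are in `2 pi i ℤ`
(`hv a i = (a i).val / 2`). -/
def SlsStmt : Prop :=
  ∀ (g : ℕ) (τ : Matrix (Fin g) (Fin g) ℂ), Siegel τ → ∀ (a : Ch g) (h : Fin g → ℤ),
    (∀ w : Fin g → ℂ, Summable (fun j : ℤ => ‖sl τ a h j w‖) ∧
      Thc τ a (fun i => 2 * w i) = ∑' j : ℤ, sl τ a h j w) ∧
    ∀ (j : ℤ) (w : Fin g → ℂ) (s : ℂ) (P : Fin g → ℤ),
      sl τ a h j (fun i => w i + s * (h i : ℂ) + (P i : ℂ))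
        = Complex.exp (8 * Real.pi * Complex.I * s * ((j : ℂ) + ((dt h (hv a) : ℝ) : ℂ)))
          * sl τ a h j w

/-- **Row SLB** (bound of the slices; uses SUP, SLS). PROOF. (1) `‖sl j w‖ <= 2^g t0 exp(8 pi Yq y)`. For
real u the point `w + (u/4) h` has the same imaginary part, and by SLS (both claims)
`exp(-2 pi i u (j + h.a/2)) Theta_a(2 w + (u/2) h) = sum_j' exp(2 pi i u (j' - j)) sl j' w`. Average over
`u = r/N`, r < N (geometric sums): the norm of the sum of `sl j' w` over `j' = j mod N` is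
`<= 2^g t0 exp(8 pi Yq y)` (SUP); N → ∞ (the terms j' <> j go to 0: absolute summability). (Or
integrate over u in [0,1].) (2) Let r be the real vector with `Yv τ r = h` (Y is positive definite,
so invertible), `ρ = h.r = Yq τ r > 0` (h <> 0, so r <> 0). The hypothesis for x = r gives
`lam ρ^2 <= ρ`, so `lam <= 1/ρ`. For real θ put `w' = w + (i θ/4) h`: `Im w' = Y (y + (θ/4) r)`,
`Yq (y + (θ/4) r) = Yq y + (θ/2) h.y + θ^2 ρ/16`, and SLS with s = i θ/4: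
`sl j w' = exp(- 2 pi θ (j + h.a/2)) sl j w`. (1) for w':
`‖sl j w‖ <= 2^g t0 exp(8 pi Yq y + 2 pi θ X + (pi/2) θ^2 ρ)`, `X = j + h.a/2 + 2 h.y`. Choose
`θ = - 2 X/ρ`: the exponent is `8 pi Yq y - 2 pi X^2/ρ <= 8 pi Yq y - 2 pi lam X^2`. -/
def SlbStmt : Prop :=
  ∀ (g : ℕ) (τ : Matrix (Fin g) (Fin g) ℂ), Siegel τ → ∀ (a : Ch g) (h : Fin g → ℤ) (lam : ℝ),
    h ≠ 0 → (∀ x : Fin g → ℝ, lam * dt h x ^ 2 ≤ Yq τ x) →
    ∀ (w : Fin g → ℂ) (y : Fin g → ℝ), (∀ i, (w i).im = Yv τ y i) → ∀ j : ℤ,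
    ‖sl τ a h j w‖ ≤ 2 ^ g * t0 τ * Real.exp (8 * Real.pi * Yq τ y
      - 2 * Real.pi * lam * ((j : ℝ) + dt h (hv a) + 2 * dt h y) ^ 2)

/-- **Row TAI** (tail of a Gaussian sum; elementary). PROOF. For `u = |j + x| >= L >= 1` write
`u = L + t`, `t >= 0`: `u^2 >= L^2 + 2 L t >= L^2 + t`, so the term is
`<= exp(-2 pi lam L^2) exp(-2 pi t)`. The j with `j + x >= L` are j0, j0 + 1, .., with t >= 0, 1, 2, ..:
their sum is `<= exp(-2 pi lam L^2)/(1 - exp(-2 pi)) <= 2 exp(-2 pi lam L^2)`; the same for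
`j + x <= -L`. -/
def TaiStmt : Prop :=
  ∀ (lam x : ℝ) (L : ℕ), 1 ≤ lam → 1 ≤ L →
    Summable (fun j : ℤ => if (L : ℝ) ≤ |(j : ℝ) + x| then
      Real.exp (-(2 * Real.pi * lam * ((j : ℝ) + x) ^ 2)) else 0) ∧
    ∑' j : ℤ, (if (L : ℝ) ≤ |(j : ℝ) + x| then
      Real.exp (-(2 * Real.pi * lam * ((j : ℝ) + x) ^ 2)) else 0)
      ≤ 4 * Real.exp (-(2 * Real.pi * lam * (L : ℝ) ^ 2))

/-! ### Block B: determinants -/

/-- **Row MNA** (archimedean determinant lemma; compare SZG row MNP, `Helper40_SZG/MNP.lean`). PROOF. Row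
i of M is `sum_s A i s B(γ i, s, .) + E_i`. Expand the determinant multilinearly in the rows
(`MultilinearMap.map_sum` or `Matrix.detRowAlternating`): `(c+1)^(card ι)` terms, given by
`φ : ι → Option (Fin c)`. If two rows of the same group use the same s, they are proportional: the
determinant is 0. Otherwise at most `c card G` rows have `φ i = some s`, so at least
`card ι - c card G` rows are E rows; each entry of row i is `<= ω i χ j`, and `<= ε ω i χ j` in an E row;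
Leibniz formula: `<= (card ι)! (∏ ω) (∏ χ) ε^(number of E rows)`, ε <= 1. -/
def MnaStmt : Prop :=
  ∀ (ι G : Type) [Fintype ι] [DecidableEq ι] [Fintype G] (c : ℕ) (γ : ι → G) (M : Matrix ι ι ℂ)
    (A : ι → Fin c → ℂ) (B : G → Fin c → ι → ℂ) (ω χ : ι → ℝ) (ε : ℝ), 0 ≤ ε → ε ≤ 1 →
    (∀ i, 0 < ω i) → (∀ j, 0 < χ j) → (∀ i s j, ‖A i s‖ * ‖B (γ i) s j‖ ≤ ω i * χ j) →
    (∀ i j, ‖M i j - ∑ s, A i s * B (γ i) s j‖ ≤ ε * (ω i * χ j)) →
    ‖M.det‖ ≤ ((Fintype.card ι).factorial : ℝ) * ((c : ℝ) + 1) ^ Fintype.card ι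
      * ε ^ (Fintype.card ι - c * Fintype.card G) * ((∏ i, ω i) * ∏ j, χ j)

/-- **Row CPH** (cosets of a subgroup of order l; compare SZG row QCS, `Helper78_SZG/QCS.lean`). PROOF. In
`(ZMod l)^g` the class H of h is not 0, so it has order l (l prime), and the quotient by the
multiples of H has `l^(g-1)` elements (Lagrange); fix a bijection with `Fin (l^(g-1))`, representatives,
lift to integers. -/
def CphStmt : Prop :=
  ∀ (g l : ℕ) (h : Fin g → ℤ), l.Prime → (∃ i, ¬ (l : ℤ) ∣ h i) →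
    ∃ (r : (Fin g → Fin l) → Fin (l ^ (g - 1))) (rep : Fin (l ^ (g - 1)) → Fin g → ℤ)
      (n : (Fin g → Fin l) → ℤ), ∀ p : Fin g → Fin l, ∃ P : Fin g → ℤ,
        ∀ i, ((p i).val : ℤ) = rep (r p) i + n p * h i + (l : ℤ) * P i

/-- **Row HDL** (division of h by a power of l). PROOF. h_i0 <> 0; induction on `|h_i0|`: if l divides all
h_i, divide by l (`|h_i0|` decreases). -/
def HdlStmt : Prop :=
  ∀ (g l : ℕ) (h : Fin g → ℤ), l.Prime → h ≠ 0 →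
    ∃ (k : ℕ) (h' : Fin g → ℤ), (∀ i, h i = (l : ℤ) ^ k * h' i) ∧ ∃ i, ¬ (l : ℤ) ∣ h' i

/-- **Row THW** (theta functions give the data, with the weight at the place φ; uses THS.TouStatement,
SZG.ScgStmt; copy and extend `Helper92_SZG/THG.lean`). PROOF. The data of THG. There
`φ(T i a) = l0 exp(B i i) Theta_a(2 gam i)` and, for m in L0 with `2 gam m = P + tau Q`,
`φ(e m i) = exp(2 B m i - 8 pi i Q.gam i)`. For i with `Im (gam i) = Y y` and m = E • i: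
`2 E gam i = P + tau Q`, so `2 E Y y = Y Q`, `Q = 2 E y` (Y invertible), and
`log v(e (E•i) i) = Re (2 E B i i - 8 pi i Q.gam i) = 2 E Re (B i i) + 8 pi Q.(Y y)
= 2 E Re (B i i) + 16 pi E Yq y`. So `Wf v E e i = exp(Re (B i i) + 8 pi Yq y)`: the claim holds with
`κ0 = |l0|`. -/
def ThwStmt : Prop :=
  ∀ (g : ℕ) (K : Type) [Field K] (φ : K →+* ℂ) (v : AbsoluteValue K ℝ), (∀ y, v y = ‖φ y‖) →
    ∀ (τ : Matrix (Fin g) (Fin g) ℂ), Siegel τ →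
    ∀ (z : Fin g → ℂ) (l : ℕ), 0 < l → (∃ N : ℕ, 0 < N ∧ InLat τ (fun i => (N : ℂ) * z i)) →
    ∀ x : Idx g → Ch g × Ch g → K, (∀ i, x i ≠ 0) →
    (∀ i, ∃ μ : ℂ, ∀ ab, φ (x i ab) = μ * Vab τ ab.1 ab.2 (gam τ z l i)) →
    ∃ (E : ℕ) (L0 : AddSubgroup (Idx g)) (c : Idx g → K) (e : Idx g → Idx g → K) (s : K)
      (T : Idx g → Ch g → K) (x' : Idx g → Ch g × Ch g → K), QS K (Idx g) g E L0 c e s T x' ∧
      (∀ P Q : Fin g → ℤ, ((0, fun i => (l : ℤ) * P i, fun i => (l : ℤ) * Q i) : Idx g) ∈ L0) ∧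
      (∀ i, ∃ κ : K, κ ≠ 0 ∧ ∀ ab, x' i ab = κ * x (i + i) ab) ∧
      (∃ (ν : ℕ → ℂ) (η : (Fin g → ℤ) → (Fin g → ℤ) → ℂ), (∀ k, ν k ≠ 0) ∧ (∀ p q, η p q ≠ 0) ∧
        ∀ (p q : Fin g → ℤ) (k : ℕ) (a : Ch g), φ (Mp l e T (Zz g) ((0, p, q) : Idx g) k a)
          = ν k * η p q * FF τ l p q a (fun i => (k : ℂ) * z i)) ∧
      ∃ κ0 : ℝ, 0 < κ0 ∧ ∀ (i : Idx g) (y : Fin g → ℝ),
        (∀ r, (gam τ z l i r).im = Yv τ y r) → ∀ a : Ch g,
        v (T i a) = κ0 * Wf v E e i * (‖Thc τ a (fun r => 2 * gam τ z l i r)‖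
          * Real.exp (-(8 * Real.pi * Yq τ y)))

/-- **Row AMI** (minors at the archimedean place; uses SLS, SLB, TAI, MNA, CPH, THS.TouStatement,
SZG.WxcStmt, SZG.QsaStmt). PROOF. `W = Wf v E e`, `b = (0,p,q)`, `w = gam (l k Z + b) = l k z + (p + tau q)/l`,
`y = l k yz + q/l` (real), `Im w = Y y`. (0) `nv v (T 0) = κ0 t0` (identity for i = 0, y = 0; W 0 = 1, WXC).
(1) `FF τ l p q a (k z) = exp(16 pi i k q.z) Theta_a(2 w)`, so
`φ(Mp ..) = ν k η p q exp(16 pi i k q.z) Theta_a(2 w)`; and as in MPB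
`v (Mp l e T Z b k a) = v (T (l k Z + b) a) W b W(l k Z)/W(l k Z + b)` (`v (e (l•b) Z) = X (l•b) Z`,
`W (l k Z + b) = W (l k Z) W b X Z b ^ (l k)`, WXC). With the identity for `i = l k Z + b` and a
characteristic a with `Theta_a(2 w) <> 0` (TOU):
(*) `|ν k η p q exp(16 pi i k q.z)| = κ0 W b W(l k Z) exp(- 8 pi Yq y)`.
(2) CPH for h gives cl, rep, n. Group of the row r i = (a, (p,q)): `γ i = (a, q, cl p)`, in
`Ch g × (Fin g → Fin l) × Fin (l^(g-1))`, which has `2^g l^g l^(g-1) = 2^g l^(2g-1)` elements (g >= 1). For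
a group t = (a, q, m) and a column k let `w0 = l k z + (rep m + tau q)/l`; then
`w = w0 + (n p/l) h + P` (P integral), so by SLS
`sl j w = exp(8 pi i (n p/l) (j + h.a/2)) sl j w0`. (3) `k h.yz = N + ε`, `|ε| <= 1/(2l)`; put
`j = s' - 2 l N`: `exp(8 pi i (n p/l) j) = exp(8 pi i (n p/l) s')`, and
`X_j = j + h.a/2 + 2 h.y = s' + c_t + 2 l ε`, `c_t = h.a/2 + 2 h.q/l`, `|2 l ε| <= 1`. Let
`s0(t) = ceil(- c_t - L - 1)`, `s' = s0 + s`, s < 2L+4. Put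
`A i s = η_(p,q) exp(8 pi i (n p/l) (s0 + s + h.a/2))`,
`B t s k = ν k exp(16 pi i k q.z) sl_(s0 + s - 2 l N_k) (w0)`. Then
`‖A i s‖ ‖B (γ i) s k‖ = |ν η exp(..)| ‖sl_j w‖ <= 2^g κ0 t0 W b W(lkZ) = 2^g W b nv(T 0) W(lkZ)`
((*), SLB), and `φ(M_ik) - sum_s A B = ν η exp(..) (sum of sl_j w over the other j)` (SLS: sum over all
j); the other j have `|s' + c_t| > L + 1`, so `|X_j| >= L`: by SLB and TAI (x = h.a/2 + 2 h.y) the norm is
`<= 4 exp(-2 pi lam L^2) 2^g W b nv(T 0) W(lkZ)`. (4) MNA for the matrix φ(IM) (ring homomorphism: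
`φ det = det φ`, `RingHom.map_det`) with c = 2L+4, `ω i = 4 2^g W(b_i)`, `χ j = nv(T 0) W((l k j) Z)`,
`ε = exp(-2 pi lam L^2)`. -/
def AmiStmt : Prop :=
  ∀ (g : ℕ) (K : Type) [Field K] (φ : K →+* ℂ) (v : AbsoluteValue K ℝ), (∀ y, v y = ‖φ y‖) →
    ∀ (τ : Matrix (Fin g) (Fin g) ℂ), Siegel τ →
    ∀ (z : Fin g → ℂ) (l E : ℕ) (L0 : AddSubgroup (Idx g)) (c : Idx g → K)
      (e : Idx g → Idx g → K) (s : K) (T : Idx g → Ch g → K) (x : Idx g → Ch g × Ch g → K),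
    l.Prime → Odd l → QS K (Idx g) g E L0 c e s T x → WX v L0 c e (Wf v E e) (Xf v E e) →
    (∀ P Q : Fin g → ℤ, ((0, fun i => (l : ℤ) * P i, fun i => (l : ℤ) * Q i) : Idx g) ∈ L0) →
    ∀ (ν : ℕ → ℂ) (η : (Fin g → ℤ) → (Fin g → ℤ) → ℂ), (∀ k, ν k ≠ 0) → (∀ p q, η p q ≠ 0) →
    (∀ (p q : Fin g → ℤ) (k : ℕ) (a : Ch g), φ (Mp l e T (Zz g) ((0, p, q) : Idx g) k a)
      = ν k * η p q * FF τ l p q a (fun i => (k : ℂ) * z i)) →
    ∀ κ0 : ℝ, 0 < κ0 → (∀ (i : Idx g) (y : Fin g → ℝ),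
      (∀ r, (gam τ z l i r).im = Yv τ y r) → ∀ a : Ch g,
      v (T i a) = κ0 * Wf v E e i * (‖Thc τ a (fun r => 2 * gam τ z l i r)‖
        * Real.exp (-(8 * Real.pi * Yq τ y)))) →
    ∀ (lam : ℝ) (h : Fin g → ℤ) (yz : Fin g → ℝ) (L : ℕ), 1 ≤ lam → 1 ≤ L →
    (∃ i, ¬ (l : ℤ) ∣ h i) → (∀ y : Fin g → ℝ, lam * dt h y ^ 2 ≤ Yq τ y) →
    (∀ r, (z r).im = Yv τ yz r) →
    ∀ (R : ℕ) (r : Fin R → Row g l) (k : Fin R → ℕ),
    (∀ j, ∃ N : ℤ, |(k j : ℝ) * dt h yz - (N : ℝ)| ≤ 1 / (2 * (l : ℝ))) →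
    v (IM l e T r k).det ≤ (R.factorial : ℝ) * (2 * (L : ℝ) + 5) ^ R * (4 * 2 ^ g) ^ R
      * Real.exp (-(2 * Real.pi * lam * (L : ℝ) ^ 2)) ^ (R - (2 * L + 4) * (2 ^ g * l ^ (2 * g - 1)))
      * ((∏ i : Fin R, Wf v E e (lft (r i).2))
        * ∏ j : Fin R, nv v (T 0) * Wf v E e ((l * k j) • Zz g))

/-- **Row PGA** (product formula with a gain at one infinite place; uses THS.HfsStatement; compare
`Helper94_SZG/PFG.lean`). PROOF. As SZG row PFG with S empty; at v0 the second hypothesis gives an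
additional factor `p0^(n mult(v0)) >= p0^n` (p0 >= 1, mult >= 1). So
`p0^n <= ((C 2^m)^[K : Q] H(Y)^r)^n`; take the root. -/
def PgaStmt : Prop :=
  ∀ (K : Type) [Field K] [NumberField K] (ι : Type) [Finite ι] (Y : ι → K) (D w : K)
    (m r n : ℕ) (C p0 : ℝ) (v0 : NumberField.InfinitePlace K), Y ≠ 0 → D ≠ 0 → w ≠ 0 → 0 ≤ C →
    1 ≤ p0 → 0 < n →
    (∀ v : NumberField.InfinitePlace K, v.val D ^ n ≤ v.val w * (C * nv v.val Y ^ r) ^ n) →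
    ((p0 * v0.val D) ^ n ≤ v0.val w * (C * nv v0.val Y ^ r) ^ n) →
    (∀ v : NumberField.FinitePlace K,
      (v.val 2 ^ m * v.val D) ^ n ≤ v.val w * (nv v.val Y ^ r) ^ n) →
    p0 ≤ (C * 2 ^ m) ^ Module.finrank ℚ K * Height.mulHeight Y ^ r

/-- **Row DAA** (OUTPUT of block B; uses AMI, PGA, SZG.DtvStmt, SZG.WprStmt, SZG.WtxStmt; compare
`Helper47_SZG/DAL.lean`). PROOF. σ >= 0 wlog (max σ 0, lam >= 1). L = natural number >= σ + 1 (so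
`pi L^2 >= σ + 1`), `n = 2 (2L+4) 2^g`, `R = n l^(2g-1) > 0`, so
`R - (2L+4) 2^g l^(2g-1) = R/2`. `w = y` from WPR. Infinite places: DTV, to the power N = 2E; at
`v0 = NumberField.InfinitePlace.mk φ` (its absolute value is `NumberField.place φ`) AMI. PGA with
`C' = R! ((2L+5) 4 2^g)^R` (`>= R! 2^(g R)`), `p0 = exp(2 pi lam L^2 R/2)`, m = g R, r = R, Y = T 0.
Logarithms: `pi lam L^2 R <= d (log C' + g R log 2) + R log H(T 0)` and `log H(T 0) <= σ lam + C`, so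
`lam <= (pi L^2 - σ) lam <= C + d (..)/R =: S0`. (v 2 = 2 at infinite places: `THS.H17.inf_two`; finite
places nonarchimedean: `H17.fin_nonarch`, in `Helper17_THS/FBD.lean`.) -/
def DaaStmt : Prop :=
  ∀ (g : ℕ) (σ : ℝ), ∃ n : ℕ, 0 < n ∧ ∀ l : ℕ, l.Prime → Odd l → ∀ (d : ℕ) (C : ℝ), ∃ S0 : ℝ,
    ∀ (K : Type) [Field K] [NumberField K], Module.finrank ℚ K ≤ d →
    ∀ (φ : K →+* ℂ) (τ : Matrix (Fin g) (Fin g) ℂ), Siegel τ →
    ∀ (z : Fin g → ℂ) (E : ℕ) (L0 : AddSubgroup (Idx g)) (c : Idx g → K)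
      (e : Idx g → Idx g → K) (s : K) (T : Idx g → Ch g → K) (x : Idx g → Ch g × Ch g → K),
    QS K (Idx g) g E L0 c e s T x →
    (∀ P Q : Fin g → ℤ, ((0, fun i => (l : ℤ) * P i, fun i => (l : ℤ) * Q i) : Idx g) ∈ L0) →
    ∀ (ν : ℕ → ℂ) (η : (Fin g → ℤ) → (Fin g → ℤ) → ℂ), (∀ k, ν k ≠ 0) → (∀ p q, η p q ≠ 0) →
    (∀ (p q : Fin g → ℤ) (k : ℕ) (a : Ch g), φ (Mp l e T (Zz g) ((0, p, q) : Idx g) k a)
      = ν k * η p q * FF τ l p q a (fun i => (k : ℂ) * z i)) →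
    ∀ κ0 : ℝ, 0 < κ0 → (∀ (i : Idx g) (y : Fin g → ℝ),
      (∀ r, (gam τ z l i r).im = Yv τ y r) → ∀ a : Ch g,
      NumberField.place φ (T i a) = κ0 * Wf (NumberField.place φ) E e i
        * (‖Thc τ a (fun r => 2 * gam τ z l i r)‖ * Real.exp (-(8 * Real.pi * Yq τ y)))) →
    ∀ (lam : ℝ) (h : Fin g → ℤ) (yz : Fin g → ℝ), 1 ≤ lam →
    (∃ i, ¬ (l : ℤ) ∣ h i) → (∀ y : Fin g → ℝ, lam * dt h y ^ 2 ≤ Yq τ y) →
    (∀ r, (z r).im = Yv τ yz r) → Real.log (Height.mulHeight (T 0)) ≤ σ * lam + C →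
    ∀ (r : Fin (n * l ^ (2 * g - 1)) → Row g l) (k : Fin (n * l ^ (2 * g - 1)) → ℕ),
    (∀ j, ∃ N : ℤ, |(k j : ℝ) * dt h yz - (N : ℝ)| ≤ 1 / (2 * (l : ℝ))) →
    (IM l e T r k).det ≠ 0 → lam ≤ S0

/-! ### Block C: finite range zero estimate -/

/-- **Row AFR** (abstract finite range zero estimate; uses ZES.ChnStmt, ZES.PwdStmt, ZES.AdmStmt,
ZES.VmzStmt). PROOF. `E = span (range v)`. j0 from CHN (M). `E ^ m` has dimension `<= M^m` (spanned by the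
products of m of the v_i). `J = D = sum_(j <= j0) M^(2^j)`. Let `G_t = {k • z : k <= t}`,
`a_t = sum_(j <= j0) finrank (E^(2^j) ⊓ Van G_t)`; `a_0 <= D`, a is nonincreasing, so there is `t <= D` with
`a_t = a_(t+1)`, hence `E^(2^j) ⊓ Van G_t = E^(2^j) ⊓ Van G_(t+1)` for all j <= j0
(`Submodule.eq_of_le_of_finrank_eq`). CHN with R = V → ℂ, I = VanI G_t: `j <= j0` with `Stab E G_t m`,
m = 2^j. Let Z = Zr E G_t m. (1) `x ∈ Z → x + z ∈ Z`: let `f ∈ E^m ⊓ Van G_t`, so f vanishes on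
G_(t+1); choose `q ∈ E` with `q (x - z) <> 0` (nbp); `h u = f (u + z) q (u - z)^m ∈ E^(2m)` (ADM) vanishes on
G_t, so `h x = 0` (VMZ), `f (x + z) = 0`. (2) `0 = 0 • z ∈ G_t ⊆ Z`. So `k • z ∈ Z` for all k. (3) Let
`q ∈ E`, `q (k • z) <> 0`: `F q^(m-1) ∈ E^m ⊓ Van G_t` (t <= J), so it vanishes at `k • z ∈ Z`:
`F (k • z) = 0`. -/
def AfrStmt : Prop :=
  ∀ M : ℕ, ∃ J : ℕ, ∀ (V : Type) [NormedAddCommGroup V] [NormedSpace ℂ V] (v : Fin M → V → ℂ),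
    ES (Submodule.span ℂ (Set.range v)) → ∀ (z : V), ∀ F ∈ Submodule.span ℂ (Set.range v),
    (∀ k : ℕ, k ≤ J → F (k • z) = 0) → ∀ k : ℕ, F (k • z) = 0

/-- **Row FRZ** (finite range zero estimate for theta functions; uses AFR, ZES.GauStmt, ZES.TrfStmt,
ZES.EsdStmt; compare `Helper80_ZES/ZET.lean`, `Helper3_ZES/AZE.lean`). PROOF. J from AFR for `M = (2 e)^g`.
GAU: Λ, L, χ, β; TRF; ESD (D = 2 e): `E = TN L χ (2 e)` is ES, of dimension `<= (2 e)^g`, so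
`E = span (range v)` for some `v : Fin M → _` (a basis, padded with 0; as in AZE).
`F' u = F (Λ.symm u) exp (2 e β (Λ.symm u)) ∈ E`, `F' (k • Λ z) = F (k • z) exp (..)`. -/
def FrzStmt : Prop :=
  ∀ (g e : ℕ), Even e → 2 ≤ e → ∃ J : ℕ, ∀ (τ : Matrix (Fin g) (Fin g) ℂ), Siegel τ →
    ∀ (z : Fin g → ℂ), ∀ F ∈ RR τ (2 * e), (∀ k : ℕ, k ≤ J → F (k • z) = 0) →
    ∀ k : ℕ, F (k • z) = 0

/-- **Row ALJ** (SZG row ALT with the columns k <= J; uses SZG.FqpStmt, SZG.FdfStmt, SZG.Fl1Stmt,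
SZG.Fl2Stmt, THS.EvbStatement). PROOF. As ALT: copy `Helper50_SZG/ALT.lean`. -/
def AljStmt : Prop :=
  ∀ (g : ℕ) (K : Type) [Field K] (φ : K →+* ℂ) (τ : Matrix (Fin g) (Fin g) ℂ), Siegel τ →
    ∀ (z : Fin g → ℂ) (l : ℕ), Odd l → ∀ (e : Idx g → Idx g → K) (T : Idx g → Ch g → K)
      (ν : ℕ → ℂ) (η : (Fin g → ℤ) → (Fin g → ℤ) → ℂ), (∀ k, ν k ≠ 0) → (∀ p q, η p q ≠ 0) →
      (∀ (p q : Fin g → ℤ) (k : ℕ) (a : Ch g), φ (Mp l e T (Zz g) ((0, p, q) : Idx g) k a)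
          = ν k * η p q * FF τ l p q a (fun i => (k : ℂ) * z i)) →
      ∀ (J m : ℕ) (κ : Fin m → Row g l → K), LinearIndependent K κ →
      (∀ (j : Fin m) (k : ℕ), k ≤ J →
        ∑ r : Row g l, κ j r * Mp l e T (Zz g) (lft r.2) k r.1 = 0) →
      ∃ F : Fin m → (Fin g → ℂ) → ℂ, LinearIndependent ℂ F ∧ ∀ j : Fin m, Differentiable ℂ (F j) ∧
        (∀ (w : Fin g → ℂ) (P Q : Fin g → ℤ),
          F j (fun i => w i + ((P i : ℂ) + ∑ j, τ i j * (Q j : ℂ)))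
            = Complex.exp (-(8 * Real.pi * Complex.I * (l : ℂ) ^ 2
                  * ∑ i, ∑ j, (Q i : ℂ) * τ i j * (Q j : ℂ))
                - 16 * Real.pi * Complex.I * (l : ℂ) ^ 2 * ∑ i, (Q i : ℂ) * w i) * F j w) ∧
        ∀ k : ℕ, k ≤ J → F j (fun i => (k : ℂ) * z i) = 0

/-! ### Assembly -/

/-- The theorem with the archimedean term alone. -/
def AroStatement : Prop :=
  ∀ (g : ℕ) (σ : ℝ), ∃ n : ℕ, ∀ l : ℕ, l.Prime → Odd l → n < l → ∀ d : ℕ, ∃ B : ℕ,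
    ∀ (K : Type) [Field K] [NumberField K], Module.finrank ℚ K ≤ d →
    ∀ (φ : K →+* ℂ) (τ : Matrix (Fin g) (Fin g) ℂ), Siegel τ →
    ∀ z : Fin g → ℂ, (∃ N : ℕ, 0 < N ∧ InLat τ (fun i => (N : ℂ) * z i)) →
    ∀ x : Idx g → Ch g × Ch g → K, (∀ i, x i ≠ 0) →
    (∀ i, ∃ μ : ℂ, ∀ ab, φ (x i ab) = μ * Vab τ ab.1 ab.2 (gam τ z l i)) →
    ∀ (lam : ℝ) (h : Fin g → ℤ), 0 ≤ lam → h ≠ 0 →
    (∀ y : Fin g → ℝ, lam * dt h y ^ 2 ≤ Yq τ y) →
    Real.log (Height.mulHeight (x 0)) ≤ σ * lam →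
    (∃ M : ℕ, 1 ≤ M ∧ M ≤ B ∧ InLat τ (fun i => (M : ℂ) * z i)) ∨
    ∃ W : Submodule ℂ (Fin g → ℂ), W ≠ ⊥ ∧ W ≠ ⊤ ∧ SubAV τ W ∧
      (∃ M : ℕ, 1 ≤ M ∧ M ≤ B ∧ ∃ u ∈ W, InLat τ (M • z - u)) ∧
      ∃ k : ℕ, 1 ≤ k ∧ k ≤ B ∧ ∀ v : Fin g → ℂ,
        (∀ f ∈ RR τ k, (∀ w ∈ W, f w = 0) → fderiv ℂ f 0 v = 0) → v ∈ W

/-- **Row ARO** (assembly; uses DAA, THW, ALJ, FRZ, HDL, SZG.NorStmt, SZG.Ht2Stmt, SZG.RkdStmt,
ZES.ZetStmt; compare `Helper11_SZG/ASZ.lean` and `Helper40_ZES/FIN.lean`). PROOF. σ' = max σ 0, n from DAA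
(g, σ'). Let `l > n` be an odd prime, d given. C = g d log 2, S0 from DAA; J from FRZ (g, 4 l^2); B1 from
NOR (g, d, exp (σ' (max S0 1))); B2 from ZET (g, 4 l^2); `Q = 2 l (J+1)`; `B = B1 + Q B2 + Q + 1`. Let K, ..
be given. If `lam < 1`: `log H(x 0) <= σ'`, NOR for `fun k => x (k,0,0)`. Let `lam >= 1`. HDL: `h = l^k h'`;
`dt h = l^k dt h'`, so the inequality holds for h' too; write h for h'. `N z = p + tau q`: `yz = q/N` is a real
vector with `Im z = Yv τ yz`. Dirichlet (`Real.exists_nat_abs_mul_sub_round_le` for `ξ = dt h yz`, Q):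
`1 <= c0 <= Q`, `|c0 ξ - N0| <= 1/(Q+1)`; so `|k c0 ξ - k N0| <= J/(Q+1) <= 1/(2l)` for k <= J. Put
`z' = c0 z`, `yz' = c0 yz`, `x'' (k,p,q) = x (c0 k, p, q)` (`gam τ z' l (k,p,q) = gam τ z l (c0 k,p,q)`,
`x'' 0 = x 0`). THW for z', x'', `v = NumberField.place φ` gives the data; H(x' 0) = H(x 0); HT2:
`log H(T 0) <= log H(x 0) + (g d/2) log 2 <= σ' lam + C`. RKD for ι = Row g l, X = Fin (J+1),
`f r k = Mp l e T (Zz g) (lft r.2) k r.1`, `R = n l^(2g-1)`. Second case: a minor `det (IM l e T r k) <> 0` with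
columns k <= J: DAA: lam <= S0, so `log H(x 0) <= σ' S0`, NOR: first alternative (for z itself). First
case: card (Row g l) - R = 2^g l^(2g) - n l^(2g-1) >= 1 relations for all k <= J (g >= 1 because h <> 0,
l > n): ALJ: F <> 0 in `RR τ (8 l^2)` with `F (k z') = 0` for k <= J; FRZ (e = 4 l^2): for all k;
`ZES.H19.van_int` (`Helper19_ZES/SZS.lean`): for all integers; ZET: W, M, k. `W = ⊥`: `M c0 z` is in
the lattice. Otherwise the second alternative with `M c0` (as in FIN). -/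
def AroStmt : Prop := AroStatement

/-- **The theorem.** `ZES.FinStatement` with the archimedean term. -/
def ArcStatement : Prop :=
  ∀ (g : ℕ) (σ : ℝ) (G : ℕ → ℕ), ∃ l : ℕ, l.Prime ∧ Odd l ∧ ∀ c d : ℕ, 0 < c → ∃ B : ℕ,
    ∀ (K : Type) [Field K] [NumberField K], Module.finrank ℚ K ≤ d →
    ∀ (φ : K →+* ℂ) (τ : Matrix (Fin g) (Fin g) ℂ), Siegel τ →
    ∀ z : Fin g → ℂ, (∃ N : ℕ, 0 < N ∧ InLat τ (fun i => (N : ℂ) * z i)) →
    ∀ (S T : Finset (NumberField.FinitePlace K)) (ev t m : NumberField.FinitePlace K → ℕ)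
      (lam : ℝ) (h : Fin g → ℤ), 0 ≤ lam → (0 < lam → h ≠ 0) →
      (∀ y : Fin g → ℝ, lam * dt h y ^ 2 ≤ Yq τ y) →
    ∀ (x : Idx g → Ch g × Ch g → K),
    (∀ i : Idx g, (S.Nonempty ∨ 0 < lam) ∨ i.2 = 0 → x i ≠ 0 ∧
      ∃ μ : ℂ, ∀ ab, φ (x i ab) = μ * Vab τ ab.1 ab.2 (gam τ z l i)) →
    (∀ v ∈ T, v.val 2 = 1 ∧ ∀ k : ℤ, PC v.val (x (c * k, 0, 0)) (x 0)) →
    (∀ v ∈ S, v.val 2 = 1 ∧ 1 ≤ ev v ∧ 1 ≤ t v ∧ 1 ≤ m v ∧ m v ≤ G (t v) ∧
      (∀ k : ℤ, SZG.CM v.val (x ((m v : ℤ) * k, 0, 0)) (x 0)) ∧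
      ∃ p q : Fin g → ℤ, (∃ i, ¬ (l : ℤ) ∣ p i ∨ ¬ (l : ℤ) ∣ q i) ∧
        ∀ u : ℤ, SZG.TC v.val ((qv v ^ ev v)⁻¹) (x (u • ((0, p, q) : Idx g))) (x 0)) →
    Real.log (Height.mulHeight (x 0))
      ≤ σ * (∑ v ∈ T, lN v + ∑ v ∈ S, (ev v : ℝ) / (t v : ℝ) * lN v + lam) →
    (∃ M : ℕ, 1 ≤ M ∧ M ≤ B ∧ InLat τ (fun i => (M : ℂ) * z i)) ∨
    (S.Nonempty ∨ 0 < lam) ∧ ∃ W : Submodule ℂ (Fin g → ℂ), W ≠ ⊥ ∧ W ≠ ⊤ ∧ SubAV τ W ∧
      (∃ M : ℕ, 1 ≤ M ∧ M ≤ B ∧ ∃ u ∈ W, InLat τ (M • z - u)) ∧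
      ∃ k : ℕ, 1 ≤ k ∧ k ≤ B ∧ ∀ v : Fin g → ℂ,
        (∀ f ∈ RR τ k, (∀ w ∈ W, f w = 0) → fderiv ℂ f 0 v = 0) → v ∈ W

end Pool.Agent.ARC
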