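import Pool.Agent.ARC.Stmts

/-!
# Squad ARC, part A: relations with the full matrix, simultaneous approximation, columns in a set

Same rules as `ARC/Stmts.lean`; import `Pool.Agent.ARC.StmtsA`.
-/

set_option autoImplicit false

namespace Pool.Agent.ARC

open scoped BigOperators
open Pool.Agent.THS Pool.Agent.ZES
open Pool.Agent.SZG (Ch Idx gam QS WX Wf Xf Mp FF Bx Row lft Zz IM)

/-- **Row RK1** (a relation or a nonzero full minor; uses THS.EvbStatement). PROOF. If the functions `f i`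
are linearly independent, EVB gives points `k` with nonzero determinant; otherwise there is a
nonzero relation (`Fintype.not_linearIndependent_iff`). -/
def Rk1Stmt : Prop :=
  ∀ (K X ι : Type) [Field K] [Fintype ι] [DecidableEq ι] (f : ι → X → K),
    (∃ κ : ι → K, κ ≠ 0 ∧ ∀ y : X, ∑ i, κ i * f i y = 0) ∨
    ∃ k : ι → X, (Matrix.of fun i j => f i (k j)).det ≠ 0

/-- **Row DIR** (simultaneous approximation, Dirichlet). PROOF. Pigeonhole: the `Q^n + 1` numbers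
`c = 0, .., Q^n` and the map `c ↦ (floor (Q * fract (c ξ_i)))_i` into `(Fin Q)^n`: two of them, c < c',
have the same value; `c' - c` works (`|fract (c' ξ_i) - fract (c ξ_i)| < 1/Q`). -/
def DirStmt : Prop :=
  ∀ (n Q : ℕ), 0 < Q → ∀ ξ : Fin n → ℝ, ∃ c : ℕ, 1 ≤ c ∧ c ≤ Q ^ n ∧
    ∀ i, ∃ N : ℤ, |(c : ℝ) * ξ i - (N : ℝ)| ≤ 1 / (Q : ℝ)

/-- **Row ALX** (SZG row ALT for one relation and the columns in a set `X`; uses SZG.FqpStmt,
SZG.FdfStmt, SZG.Fl1Stmt, SZG.Fl2Stmt). PROOF. As ALT (`Helper50_SZG/ALT.lean`) for m = 1: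
`F w = sum_r φ(κ r) η(p,q) FF τ l p q a w`; `F = 0` would give `φ (κ r) η = 0` for all r by FL1, FL2. -/
def AlxStmt : Prop :=
  ∀ (g : ℕ) (K : Type) [Field K] (φ : K →+* ℂ) (τ : Matrix (Fin g) (Fin g) ℂ), Siegel τ →
    ∀ (z : Fin g → ℂ) (l : ℕ), Odd l → ∀ (e : Idx g → Idx g → K) (T : Idx g → Ch g → K)
      (ν : ℕ → ℂ) (η : (Fin g → ℤ) → (Fin g → ℤ) → ℂ), (∀ k, ν k ≠ 0) → (∀ p q, η p q ≠ 0) →
      (∀ (p q : Fin g → ℤ) (k : ℕ) (a : Ch g), φ (Mp l e T (Zz g) ((0, p, q) : Idx g) k a)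
          = ν k * η p q * FF τ l p q a (fun i => (k : ℂ) * z i)) →
      ∀ (X : Set ℕ) (κ : Row g l → K), κ ≠ 0 →
      (∀ k ∈ X, ∑ r : Row g l, κ r * Mp l e T (Zz g) (lft r.2) k r.1 = 0) →
      ∃ F ∈ RR τ (2 * (4 * l ^ 2)), F ≠ 0 ∧ ∀ k ∈ X, F (k • z) = 0

end Pool.Agent.ARC
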