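import Pool.Agent.ARC.StmtsA

/-!
# Squad ARC, block P: SEVERAL archimedean places

With one place φ the theorem is nearly empty: K contains the l-torsion, `log H` is the relative
height over K and the archimedean part of it is a sum over ALL infinite places of K, so one place
carries only `1/[K : Q]` of it, and `[K : Q]` grows with l. Here: a finite set Φ of infinite places w,
each with its own period matrix `tau_w` and its own uniformisation `gamma_w` of the points (additive,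
torsion valued; no relation to the main φ, τ, z), hypothesis
`log H(x_0) <= σ (sum_T log Nv + sum_S (e/t) log Nv + sum_Φ lam_w)` (the local degrees 1, 2 only change
σ).

At w the data `T i` of THG (made for φ) have an analytic description up to SIGNS `ε i`, which depend
only on `i` modulo `2 I`; so only EVEN columns are used (row TGW). Rules as in `ARC/Stmts.lean`;
file `Pool/Agent/HelperNN_ARC/XXX.lean`, import `Pool.Agent.ARC.StmtsP`.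
-/

set_option autoImplicit false

namespace Pool.Agent.ARC

open scoped BigOperators
open Pool.Agent.THS Pool.Agent.ZES
open Pool.Agent.SZG (Ch Idx gam QS WX Wf Xf Mp FF Bx Row lft Zz IM)

/-- The points with coordinates `x i` are, at the embedding `ψ`, the points `γ i` of the complex torus
with period matrix `τ`; `γ` is additive and has values in the torsion. -/
structure AD {g : ℕ} {K : Type} [Field K] (ψ : K →+* ℂ) (τ : Matrix (Fin g) (Fin g) ℂ)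
    (γ : Idx g → Fin g → ℂ) (x : Idx g → Ch g × Ch g → K) : Prop where
  sg : Siegel τ
  add : ∀ i j r, γ (i + j) r = γ i r + γ j r
  tor : ∃ N : ℕ, 0 < N ∧ ∀ i, InLat τ (fun r => (N : ℂ) * γ i r)
  pt : ∀ i, ∃ μ : ℂ, ∀ ab, ψ (x i ab) = μ * Vab τ ab.1 ab.2 (γ i)

/-! ### The data at another embedding -/

/-- **Row TGA** (the scalars; uses THS.TouStatement, SZG.RgiStmt). PROOF. `Θ_i c = Thc τ c (2 γ i)`,
`V_i = Vab τ (2 γ i) = Vab τ (γ (i+i))`, `ψ (x' i ab) = ω i * V_i ab`, ω i <> 0 (x' i <> 0).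
(1) For all i, j: `ψ (RG T a b i j) = ψ s ω_i ω_j V_i(a,b) V_j(a,b)` (rie), and by TOU (first claim)
`V_i(a,b) V_j(a,b) = RG Θ a b i j` (as a family indexed by I). (2) RGI for T and for Θ (or the second
claim of TOU): `ψ (T (i+j) c * T (i-j) d) = ψ s ω_i ω_j Θ_(i+j) c Θ_(i-j) d` for all c, d (2^g <> 0 in
ℂ). (3) j = 0: `ψ (T i c) ψ (T i d) = ψ s ω_i ω_0 Θ_i c Θ_i d`; choose d with `T i d <> 0`:
`ρ i = ψ s ω_i ω_0 Θ_i d/ψ (T i d)`, `ψ (T i c) = ρ i Θ_i c`, ρ i <> 0. (4) (2) again, with c, d such that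
`T (i+j) c <> 0`, `T (i-j) d <> 0`: `ρ (i+j) ρ (i-j) = ψ s ω_i ω_j` for all i, j. So
`ρ i ^2 = ψ s ω_i ω_0`, `ρ 0 ^2 = ψ s ω_0^2`, and `ρ (i+j) ρ (i-j) ρ 0 ^2 = ρ i^2 ρ j^2`. -/
def TgaStmt : Prop :=
  ∀ (g : ℕ) (K : Type) [Field K] (E : ℕ) (L0 : AddSubgroup (Idx g)) (c : Idx g → K)
    (e : Idx g → Idx g → K) (s : K) (T : Idx g → Ch g → K) (x' : Idx g → Ch g × Ch g → K),
    QS K (Idx g) g E L0 c e s T x' →
    ∀ x : Idx g → Ch g × Ch g → K, (∀ i, ∃ κ : K, κ ≠ 0 ∧ ∀ ab, x' i ab = κ * x (i + i) ab) →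
    ∀ (ψ : K →+* ℂ) (τ : Matrix (Fin g) (Fin g) ℂ) (γ : Idx g → Fin g → ℂ), AD ψ τ γ x →
    ∃ ρ : Idx g → ℂ, (∀ i, ρ i ≠ 0) ∧
      (∀ i c, ψ (T i c) = ρ i * Thc τ c (fun r => 2 * γ i r)) ∧
      ∀ i j, ρ (i + j) * ρ (i - j) * ρ 0 ^ 2 = ρ i ^ 2 * ρ j ^ 2

/-- **Row TGB** (signs; uses SZG.PlgStmt, SZG.QffStmt). PROOF. `r i = ρ i/ρ 0`:
`r (i+j) r (i-j) = r i^2 r j^2`, r 0 = 1. G = Additive ℂˣ, h i = class of r i. PLG (h 0 = 0). f = 2 • h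
satisfies the hypotheses of QFF (π = exp as an additive map ℂ →+ Additive ℂˣ, surjective): B0 with
`exp (B0 i i) = r i^2`. B = B0/2, `ε i = r i/exp (B i i)`, `ε i^2 = 1`. Since
`B (i+j) (i+j) + B (i-j) (i-j) = 2 B i i + 2 B j j`, `ε (i+j) ε (i-j) = ε i^2 ε j^2 = 1`, so
`ε (i+j) = ε (i-j)`; replace i by i + j. -/
def TgbStmt : Prop :=
  ∀ (I : Type) [AddCommGroup I] [Module.Free ℤ I] [Module.Finite ℤ I] (ρ : I → ℂ),
    (∀ i, ρ i ≠ 0) → (∀ i j, ρ (i + j) * ρ (i - j) * ρ 0 ^ 2 = ρ i ^ 2 * ρ j ^ 2) →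
    ∃ (B : I → I → ℂ) (ε : I → ℂ), (∀ i j, B i j = B j i) ∧
      (∀ i j k, B (i + j) k = B i k + B j k) ∧ (∀ i, ε i ^ 2 = 1) ∧
      (∀ i j, ε (i + (j + j)) = ε i) ∧ ε 0 = 1 ∧ ∀ i, ρ i = ρ 0 * ε i * Complex.exp (B i i)

/-- **Row TGC** (periods; uses TGA, TGB, THS.TouStatement, SZG.QsaStmt). PROOF. ρ from TGA, B, ε from TGB.
Let m ∈ L0. `T m c = c m * e m 0 * T 0 c` (per), so `Thc τ c (2 γ m) = lam Thc τ c 0`-type relation
(`γ 0 = 0`), and with N from `tor`: `N (2 γ m) = 2 p + τ (2 q)`: the last claim of TOU gives P, Q with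
`2 γ m = P + τ Q`. For such P, Q: TOU (periods) at the point 2 γ i:
`Thc τ c (2 γ (i+m)) = exp(- 2 pi i Q.τQ - 8 pi i Q.γ i) Thc τ c (2 γ i)`; so by `per` (some
`T i c <> 0`): `ψ (c m e m i) = (ρ (i+m)/ρ i) exp(- 2 pi i Q.τQ - 8 pi i Q.γ i)`; for i = 0 (e m 0 = 1
by QSA (e m (0 • i)) or eadd): `ψ (c m)`; quotient:
`ψ (e m i) = (ρ (i+m) ρ 0/(ρ i ρ m)) exp(- 8 pi i Q.γ i) = ε (i+m) ε i ε m exp(2 B i m - 8 pi i Q.γ i)`
(`1/ε = ε`, B (i+m) (i+m) = B i i + B m m + 2 B i m). -/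
def TgcStmt : Prop :=
  ∀ (g : ℕ) (K : Type) [Field K] (E : ℕ) (L0 : AddSubgroup (Idx g)) (c : Idx g → K)
    (e : Idx g → Idx g → K) (s : K) (T : Idx g → Ch g → K) (x' : Idx g → Ch g × Ch g → K),
    QS K (Idx g) g E L0 c e s T x' →
    ∀ x : Idx g → Ch g × Ch g → K, (∀ i, ∃ κ : K, κ ≠ 0 ∧ ∀ ab, x' i ab = κ * x (i + i) ab) →
    ∀ (ψ : K →+* ℂ) (τ : Matrix (Fin g) (Fin g) ℂ) (γ : Idx g → Fin g → ℂ), AD ψ τ γ x →
    ∃ (ρ0 : ℂ) (B : Idx g → Idx g → ℂ) (ε : Idx g → ℂ), ρ0 ≠ 0 ∧ (∀ i j, B i j = B j i) ∧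
      (∀ i j k, B (i + j) k = B i k + B j k) ∧ (∀ i, ε i ^ 2 = 1) ∧
      (∀ i j, ε (i + (j + j)) = ε i) ∧ ε 0 = 1 ∧
      (∀ i c, ψ (T i c) = ρ0 * ε i * Complex.exp (B i i) * Thc τ c (fun r => 2 * γ i r)) ∧
      ∀ m ∈ L0, InLat τ (fun r => 2 * γ m r) ∧
        ∀ P Q : Fin g → ℤ, (∀ r, 2 * γ m r = (P r : ℂ) + ∑ j, τ r j * (Q j : ℂ)) →
        ∀ i, ψ (e m i) = ε (i + m) * ε i * ε m
          * Complex.exp (2 * B i m - 8 * Real.pi * Complex.I * ∑ r, (Q r : ℂ) * γ i r)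

/-- **Row TGW** (OUTPUT: the rows of the interpolation matrix at another embedding, even columns; uses
TGC, SZG.QsaStmt). PROOF. Notation of TGC; Z = Zz g, z = γ Z. (1) WEIGHTS. Let `Im (γ i) = Y y`
(y real). m = E • i ∈ L0, `2 γ m = 2 E γ i = P + τ Q`, imaginary parts: `2 E Y y = Y Q`, so `Q = 2 E y`
(Y positive definite). TGC: `log v (e m i) = Re (2 B i m) + 8 pi Q.Im (γ i) = 2 E Re (B i i) +
16 pi E Yq y` (‖ε‖ = 1, B i (E • i) = E B i i). So `Wf v E e i = exp (Re (B i i) + 8 pi Yq y)`.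
(2) LABELS. b ∈ Bx, i = lft b, m = l • i ∈ L0: `2 γ m = 2 l γ i = P + τ Q`. l is odd: P = 2 p' + l P',
Q = 2 q' + l Q', (p',q') ∈ {0..l-1}^(2g) (`A b`). So `2 γ i = 2 (p' + τ q')/l + P' + τ Q'`.
(3) MATRIX ENTRIES. k = 2m' (m' the column): `Mp l e T Z i k a = (e (l•i) Z)^(-k) T ((l k)•Z + i) a`.
TGC for `l•i`: the signs disappear in an even power, `B Z (l•i) = l B Z i`:
`ψ (e (l•i) Z)^(-k) = exp(- 2 l k B Z i + 8 pi i k Q.z)`. `ε ((l k)•Z + i) = ε i` (k even),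
`B(..) = l^2 k^2 B Z Z + 2 l k B Z i + B i i`. So
`ψ (Mp ..) = ρ0 exp(l^2 k^2 B Z Z) * ε i exp(B i i) * exp(8 pi i k Q.z) Thc τ a (2 l k z + 2 γ i)`.
TOU/TCP periods (THS.TcpStatement is part of TOU; or expand as in FQP) at
`X = 2 l k z + 2 (p' + τ q')/l`: `Thc τ a (X + P' + τ Q') = exp(- 2 pi i Q'.τQ' - 4 pi i Q'.X) Thc τ a X`,
and `exp(8 pi i k Q.z - 8 pi i l k Q'.z) = exp(16 pi i k q'.z)`: the product is
`ν * η * FF τ l p' q' a (k z)`, `ν m' = ρ0 exp(l^2 k^2 B Z Z)`,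
`η b = ε i exp(B i i) exp(- 2 pi i Q'.τQ' - 8 pi i Q'.(p' + τ q')/l)`. (4) WEIGHT of b: `Im (γ i) = Y y_b`,
`y_b = Q/(2 l) = q'/l + Q'/2`, `8 pi Yq y_b = 8 pi Yq q'/l^2 + 8 pi q'.Y Q'/l + 2 pi Yq Q'`, and
`log ‖η b‖ = Re (B i i) + 2 pi Yq Q' + 8 pi Q'.Y q'/l`. (5) WEIGHT of the column: y for `(l k)•Z` is
`l k y`; `nv v (T 0) = ‖ρ0‖ t0` (ε 0 = 1, B 0 0 = 0, γ 0 = 0). -/
def TgwStmt : Prop :=
  ∀ (g : ℕ) (K : Type) [Field K] (l E : ℕ) (L0 : AddSubgroup (Idx g)) (c : Idx g → K)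
    (e : Idx g → Idx g → K) (s : K) (T : Idx g → Ch g → K) (x' : Idx g → Ch g × Ch g → K),
    Odd l → QS K (Idx g) g E L0 c e s T x' →
    (∀ P Q : Fin g → ℤ, ((0, fun i => (l : ℤ) * P i, fun i => (l : ℤ) * Q i) : Idx g) ∈ L0) →
    ∀ x : Idx g → Ch g × Ch g → K, (∀ i, ∃ κ : K, κ ≠ 0 ∧ ∀ ab, x' i ab = κ * x (i + i) ab) →
    ∀ (ψ : K →+* ℂ) (v : AbsoluteValue K ℝ), (∀ y, v y = ‖ψ y‖) →
    ∀ (τ : Matrix (Fin g) (Fin g) ℂ) (γ : Idx g → Fin g → ℂ), AD ψ τ γ x →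
    ∃ (ν : ℕ → ℂ) (η : Bx g l → ℂ) (A : Bx g l → Bx g l),
      (∀ (b : Bx g l) (m : ℕ) (a : Ch g), ψ (Mp l e T (Zz g) (lft b) (2 * m) a)
        = ν m * η b * FF τ l (lft (A b)).2.1 (lft (A b)).2.2 a
            (fun r => ((2 * m : ℕ) : ℂ) * γ (Zz g) r)) ∧
      (∀ b, Wf v E e (lft b) = ‖η b‖
        * Real.exp (8 * Real.pi * Yq τ (fun r => ((lft (A b)).2.2 r : ℝ)) / (l : ℝ) ^ 2)) ∧
      ∀ y : Fin g → ℝ, (∀ r, (γ (Zz g) r).im = Yv τ y r) → ∀ m : ℕ,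
        nv v (T 0) * Wf v E e ((l * (2 * m)) • Zz g)
          = ‖ν m‖ * (t0 τ * Real.exp (8 * Real.pi * (l : ℝ) ^ 2 * ((2 * (m : ℝ)) ^ 2 * Yq τ y)))

/-! ### Minors -/

/-- **Row AMX** (minors of the matrix of theta values; the analytic core of AMI; uses SLS, SLB, TAI, MNA,
CPH). PROOF. Row r i = (a, (p,q)), column point w with `Im w = Y y`; `W = l w + (p + τ q)/l`,
`Im W = Y (l y + q/l)`, `FF τ l p q a w = exp(16 pi i q.w) Thc τ a (2 W)`,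
`|exp(16 pi i q.w)| = exp(- 16 pi q.Y y)`, and
(*) `exp(- 16 pi q.Y y) exp(8 pi Yq (l y + q/l)) = exp(8 pi Yq q/l^2) exp(8 pi l^2 Yq y)`.
Group of the row: `(a, q, cl p)` in `Ch g × (Fin g → Fin l) × Fin (l^(g-1))` (2^g l^(2g-1) elements, g >= 1
since h <> 0). For a group t = (a, q, m) and a column put `w0 = l w + (rep m + τ q)/l`;
`W = w0 + (n p/l) h + P` (CPH, P integral), so by SLS
`sl j W = exp(8 pi i (n p/l) (j + h.a/2)) sl j w0`. Let `h.y = N + δ`, `|δ| <= 1/(2l)`, and j = s' - 2 l N: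
`exp(8 pi i (n p/l) j) = exp(8 pi i (n p/l) s')`, and `X_j = j + h.a/2 + 2 h.(l y + q/l)
= s' + c_t + 2 l δ`, `c_t = h.a/2 + 2 h.q/l`, `|2 l δ| <= 1`. `s0(t) = ceil(- c_t - L - 1)`,
`s' = s0 + s`, s < 2L+4; `A i s = exp(8 pi i (n p/l) (s0 + s + h.a/2))` (norm 1),
`B t s j = exp(16 pi i q.w) sl_(s0 + s - 2 l N) (w0)`. By SLB and (*):
`‖A‖ ‖B‖ <= 2^g t0 exp(8 pi Yq q/l^2) exp(8 pi l^2 Yq y)`, and `M_ij - sum_s A B` is exp(16 pi i q.w)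
times the sum of the other slices (SLS: sum over all j), for which `|s' + c_t| > L + 1`, `|X_j| >= L`:
SLB and TAI (x = h.a/2 + 2 h.(l y + q/l)): `<= 4 exp(- 2 pi lam L^2)` times the same bound. MNA with
c = 2L+4, `ω i = 4 2^g exp(8 pi Yq q_i/l^2)`, `χ j = t0 exp(8 pi l^2 Yq y_j)` (t0 > 0: if t0 = 0 all
Theta_c vanish by SLB; or THS.TcnStatement), `ε = exp(- 2 pi lam L^2)`. -/
def AmxStmt : Prop :=
  ∀ (g : ℕ) (τ : Matrix (Fin g) (Fin g) ℂ), Siegel τ → 0 < t0 τ → ∀ l : ℕ, l.Prime → Odd l →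
    ∀ (lam : ℝ) (h : Fin g → ℤ) (L : ℕ), 1 ≤ lam → 1 ≤ L → (∃ i, ¬ (l : ℤ) ∣ h i) →
    (∀ y : Fin g → ℝ, lam * dt h y ^ 2 ≤ Yq τ y) →
    ∀ (R : ℕ) (r : Fin R → Row g l) (w : Fin R → Fin g → ℂ) (y : Fin R → Fin g → ℝ),
    (∀ j i, (w j i).im = Yv τ (y j) i) →
    (∀ j, ∃ N : ℤ, |dt h (y j) - (N : ℝ)| ≤ 1 / (2 * (l : ℝ))) →
    ‖(Matrix.of fun i j => FF τ l (lft (r i).2).2.1 (lft (r i).2).2.2 (r i).1 (w j)).det‖
      ≤ (R.factorial : ℝ) * (2 * (L : ℝ) + 5) ^ R * (4 * 2 ^ g) ^ R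
      * Real.exp (-(2 * Real.pi * lam * (L : ℝ) ^ 2)) ^ (R - (2 * L + 4) * (2 ^ g * l ^ (2 * g - 1)))
      * ((∏ i : Fin R,
            Real.exp (8 * Real.pi * Yq τ (fun m => ((lft (r i).2).2.2 m : ℝ)) / (l : ℝ) ^ 2))
        * ∏ j : Fin R, t0 τ * Real.exp (8 * Real.pi * (l : ℝ) ^ 2 * Yq τ (y j)))

/-- **Row AMW** (minors at a place w in Φ, even columns; uses TGW, AMX, THS.TouStatement). PROOF. ψ(det) =
det ψ (`RingHom.map_det`). By TGW `ψ (IM i j) = ν (k j) * η b_i * FF τ l p' q' a (2 k_j z)`: pull the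
factors out of rows and columns (`Matrix.det_mul_row`, `Matrix.det_mul_column`); AMX for the rows
`(a_i, A b_i)` and the points `2 k_j z` with `y_j = 2 k_j y` (Yq is homogeneous of degree 2, dt of
degree 1); the weights are put together by the last two claims of TGW. t0 > 0: TOU (no common zero). -/
def AmwStmt : Prop :=
  ∀ (g : ℕ) (K : Type) [Field K] (l E : ℕ) (L0 : AddSubgroup (Idx g)) (c : Idx g → K)
    (e : Idx g → Idx g → K) (s : K) (T : Idx g → Ch g → K) (x' : Idx g → Ch g × Ch g → K),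
    l.Prime → Odd l → QS K (Idx g) g E L0 c e s T x' →
    (∀ P Q : Fin g → ℤ, ((0, fun i => (l : ℤ) * P i, fun i => (l : ℤ) * Q i) : Idx g) ∈ L0) →
    ∀ x : Idx g → Ch g × Ch g → K, (∀ i, ∃ κ : K, κ ≠ 0 ∧ ∀ ab, x' i ab = κ * x (i + i) ab) →
    ∀ (ψ : K →+* ℂ) (v : AbsoluteValue K ℝ), (∀ y, v y = ‖ψ y‖) →
    ∀ (τ : Matrix (Fin g) (Fin g) ℂ) (γ : Idx g → Fin g → ℂ), AD ψ τ γ x →
    ∀ (lam : ℝ) (h : Fin g → ℤ) (y : Fin g → ℝ) (L : ℕ), 1 ≤ lam → 1 ≤ L →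
    (∃ i, ¬ (l : ℤ) ∣ h i) → (∀ u : Fin g → ℝ, lam * dt h u ^ 2 ≤ Yq τ u) →
    (∀ r, (γ (Zz g) r).im = Yv τ y r) →
    ∀ (R : ℕ) (r : Fin R → Row g l) (k : Fin R → ℕ),
    (∀ j, ∃ N : ℤ, |((2 * k j : ℕ) : ℝ) * dt h y - (N : ℝ)| ≤ 1 / (2 * (l : ℝ))) →
    v (IM l e T r (fun j => 2 * k j)).det
      ≤ (R.factorial : ℝ) * (2 * (L : ℝ) + 5) ^ R * (4 * 2 ^ g) ^ R
      * Real.exp (-(2 * Real.pi * lam * (L : ℝ) ^ 2)) ^ (R - (2 * L + 4) * (2 ^ g * l ^ (2 * g - 1)))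
      * ((∏ i : Fin R, Wf v E e (lft (r i).2))
        * ∏ j : Fin R, nv v (T 0) * Wf v E e ((l * (2 * k j)) • Zz g))

/-- **Row PFA** (product formula with gains at infinite places; uses THS.HfsStatement; compare
`Helper94_SZG/PFG.lean`). PROOF. The product formula for `D` and for `w`: `1 = prod_v v(D)^n/v(w)`.
Multiply the hypotheses (infinite places with the exponent mult v): `(prod_v p v^mult)^n <=
((C 2^m)^[K : Q] H(Y)^r)^n`; take the root. -/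
def PfaStmt : Prop :=
  ∀ (K : Type) [Field K] [NumberField K] (ι : Type) [Finite ι] (Y : ι → K) (D w : K)
    (m r n : ℕ) (C : ℝ) (p : NumberField.InfinitePlace K → ℝ), Y ≠ 0 → D ≠ 0 → w ≠ 0 → 0 ≤ C →
    0 < n → (∀ v, 0 ≤ p v) →
    (∀ v : NumberField.InfinitePlace K, (p v * v.val D) ^ n ≤ v.val w * (C * nv v.val Y ^ r) ^ n) →
    (∀ v : NumberField.FinitePlace K,
      (v.val 2 ^ m * v.val D) ^ n ≤ v.val w * (nv v.val Y ^ r) ^ n) →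
    ∏ v : NumberField.InfinitePlace K, p v ^ v.mult
      ≤ (C * 2 ^ m) ^ Module.finrank ℚ K * Height.mulHeight Y ^ r

/-- **Row DAF** (OUTPUT; uses AMW, PFA, SZG.DtvStmt, SZG.WprStmt, SZG.WtxStmt). PROOF. As DAA. σ >= 0
wlog. L = natural number >= σ + 1, `n = 2 (2L+4) 2^g`, `R = n l^(2g-1) > 0` (a natural number, also if
g = 0), so `R - (2L+4) 2^g l^(2g-1) = R/2`. w = y from WPR for the columns `2 k j`. Infinite places
v ∉ Φ: DTV (`v 2 = 2`), to the power N = 2E, p v = 1; v ∈ Φ: AMW with ψ = v.embedding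
(`NumberField.InfinitePlace.norm_embedding_eq`), `p v = exp(2 pi lam_v L^2 R/2)`. PFA with
`C' = R! ((2L+5) 4 2^g)^R` (`>= R! 2^(g R)`), m = g R, r = R, Y = T 0. Logarithms
(p v >= 1, mult >= 1): `pi L^2 R sum_Φ lam <= d (log C' + g R log 2) + R log H(T 0)`, so
`sum_Φ lam <= (pi L^2 - σ) sum_Φ lam <= C + d (..)/R =: S0` (at least 0). -/
def DafStmt : Prop :=
  ∀ (g : ℕ) (σ : ℝ), ∃ n : ℕ, 0 < n ∧ ∀ l : ℕ, l.Prime → Odd l → ∀ (d : ℕ) (C : ℝ), ∃ S0 : ℝ,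
    ∀ (K : Type) [Field K] [NumberField K], Module.finrank ℚ K ≤ d →
    ∀ (E : ℕ) (L0 : AddSubgroup (Idx g)) (c : Idx g → K) (e : Idx g → Idx g → K) (s : K)
      (T : Idx g → Ch g → K) (x' : Idx g → Ch g × Ch g → K), QS K (Idx g) g E L0 c e s T x' →
    (∀ P Q : Fin g → ℤ, ((0, fun i => (l : ℤ) * P i, fun i => (l : ℤ) * Q i) : Idx g) ∈ L0) →
    ∀ x : Idx g → Ch g × Ch g → K, (∀ i, ∃ κ : K, κ ≠ 0 ∧ ∀ ab, x' i ab = κ * x (i + i) ab) →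
    ∀ (Φ : Finset (NumberField.InfinitePlace K))
      (τ : NumberField.InfinitePlace K → Matrix (Fin g) (Fin g) ℂ)
      (γ : NumberField.InfinitePlace K → Idx g → Fin g → ℂ)
      (y : NumberField.InfinitePlace K → Fin g → ℝ)
      (h : NumberField.InfinitePlace K → Fin g → ℤ) (lam : NumberField.InfinitePlace K → ℝ),
    (∀ w ∈ Φ, AD w.embedding (τ w) (γ w) x ∧ 1 ≤ lam w ∧ (∃ i, ¬ (l : ℤ) ∣ h w i) ∧
      (∀ u : Fin g → ℝ, lam w * dt (h w) u ^ 2 ≤ Yq (τ w) u) ∧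
      ∀ r, (γ w (Zz g) r).im = Yv (τ w) (y w) r) →
    Real.log (Height.mulHeight (T 0)) ≤ σ * ∑ w ∈ Φ, lam w + C →
    ∀ (r : Fin (n * l ^ (2 * g - 1)) → Row g l) (k : Fin (n * l ^ (2 * g - 1)) → ℕ),
    (∀ j, ∀ w ∈ Φ, ∃ N : ℤ,
      |((2 * k j : ℕ) : ℝ) * dt (h w) (y w) - (N : ℝ)| ≤ 1 / (2 * (l : ℝ))) →
    (IM l e T r (fun j => 2 * k j)).det ≠ 0 → ∑ w ∈ Φ, lam w ≤ S0

/-! ### Assembly -/

/-- The data of the archimedean places: for w in Φ the period matrix `τ w`, the points `γ w i`, an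
integer vector `h w <> 0` and `lam w >= 0` with `lam (h.u)^2 <= u.(Im tau)u`. -/
def ArcData {g : ℕ} {K : Type} [Field K] [NumberField K] (x : Idx g → Ch g × Ch g → K)
    (Φ : Finset (NumberField.InfinitePlace K))
    (τ : NumberField.InfinitePlace K → Matrix (Fin g) (Fin g) ℂ)
    (γ : NumberField.InfinitePlace K → Idx g → Fin g → ℂ)
    (h : NumberField.InfinitePlace K → Fin g → ℤ) (lam : NumberField.InfinitePlace K → ℝ) : Prop :=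
  ∀ w ∈ Φ, AD w.embedding (τ w) (γ w) x ∧ h w ≠ 0 ∧ 0 ≤ lam w ∧
    ∀ u : Fin g → ℝ, lam w * dt (h w) u ^ 2 ≤ Yq (τ w) u

/-- **Row ARF** (the archimedean theorem; uses DAF, DIR, ALX, FRZ, HDL, SZG.ThgStmt,
SZG.NorStmt, SZG.Ht2Stmt, SZG.RkdStmt, ZES.ZetStmt; compare `Helper11_SZG/ASZ.lean` and `Helper40_ZES/FIN.lean`).
PROOF. σ' = max σ 0, n from DAF (g, σ'). Let `l > n` be an odd prime, d given. C = g d log 2 + σ' d, S0
from DAF; J from FRZ (g, 4 l^2); B1 from NOR (g, d, exp (σ' (max S0 0 + d))); B2 from ZET (g, 4 l^2);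
B3 = Q^d for Q = 4 l (J+1) (DIR; `Q^card <= Q^d`); `B = B1 + 2 B3 B2 + 2 B3 + 1`. Let K, .. be given, Φ' = the w ∈ Φ with
`lam w >= 1`; `sum_Φ lam <= sum_Φ' lam + d` (at most d infinite places:
`NumberField.InfinitePlace.sum_mult_eq`, mult >= 1).
g = 0: every vector is in the lattice. HDL for `h w`: `h w = l^k h'`, the inequality holds for h'.
`y w`: `N γ_w(Z) = p + τ q`, y = q/N. DIR for `ξ w = dt h'_w (y w)`, w ∈ Φ' (card <= d): c0, `|2 k c0 ξ - 2 k N| <=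
2 J/(4 l (J+1)) <= 1/(2l)` for k <= J. Put `z' = c0 z`, `x'' (k,p,q) = x (c0 k, p, q)`,
`γ'_w (k,p,q) = γ_w (c0 k, p, q)`, y' = c0 y (AD for x'', γ'). THG for z', x'' gives the data, H(x' 0) =
H(x 0); HT2: `log H(T 0) <= log H(x 0) + (g d/2) log 2 <= σ' sum_Φ' lam + C`. RKD for ι = Row g l,
X = Fin (J+1), `f r k = Mp l e T (Zz g) (lft r.2) (2 k) r.1`, `R = n l^(2g-1)`. Second case: a minor
`<> 0`: DAF: `sum_Φ' lam <= S0`, so `log H(x 0) <= σ' (S0 + d)`, NOR: first alternative. First case: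
card (Row g l) - R = 2^g l^(2g) - n l^(2g-1) >= 1 relations for the columns 2k, k <= J: ALX (one of
them) with X = {2 k | k <= J}: F <> 0 in `RR τ (8 l^2)` with `F (k (2 z')) = 0` for k <= J; FRZ (e = 4 l^2) for the
point 2 z': for all k; `ZES.H19.van_int` (`Helper19_ZES/SZS.lean`): for all integers; ZET for 2 z': W, M,
k. `W = ⊥`: `M 2 c0 z` is in the lattice. Otherwise the second alternative with `2 c0 M` (as in FIN). -/
def ArfStatement : Prop :=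
  ∀ (g : ℕ) (σ : ℝ), ∃ n : ℕ, ∀ l : ℕ, l.Prime → Odd l → n < l → ∀ d : ℕ, ∃ B : ℕ,
    ∀ (K : Type) [Field K] [NumberField K], Module.finrank ℚ K ≤ d →
    ∀ (φ : K →+* ℂ) (τ : Matrix (Fin g) (Fin g) ℂ), Siegel τ →
    ∀ z : Fin g → ℂ, (∃ N : ℕ, 0 < N ∧ InLat τ (fun i => (N : ℂ) * z i)) →
    ∀ x : Idx g → Ch g × Ch g → K, (∀ i, x i ≠ 0) →
    (∀ i, ∃ μ : ℂ, ∀ ab, φ (x i ab) = μ * Vab τ ab.1 ab.2 (gam τ z l i)) →
    ∀ (Φ : Finset (NumberField.InfinitePlace K))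
      (τ' : NumberField.InfinitePlace K → Matrix (Fin g) (Fin g) ℂ)
      (γ' : NumberField.InfinitePlace K → Idx g → Fin g → ℂ)
      (h : NumberField.InfinitePlace K → Fin g → ℤ) (lam : NumberField.InfinitePlace K → ℝ),
    ArcData x Φ τ' γ' h lam →
    Real.log (Height.mulHeight (x 0)) ≤ σ * ∑ w ∈ Φ, lam w →
    (∃ M : ℕ, 1 ≤ M ∧ M ≤ B ∧ InLat τ (fun i => (M : ℂ) * z i)) ∨
    ∃ W : Submodule ℂ (Fin g → ℂ), W ≠ ⊥ ∧ W ≠ ⊤ ∧ SubAV τ W ∧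
      (∃ M : ℕ, 1 ≤ M ∧ M ≤ B ∧ ∃ u ∈ W, InLat τ (M • z - u)) ∧
      ∃ k : ℕ, 1 ≤ k ∧ k ≤ B ∧ ∀ v : Fin g → ℂ,
        (∀ f ∈ RR τ k, (∀ w ∈ W, f w = 0) → fderiv ℂ f 0 v = 0) → v ∈ W

/-- **The theorem, several archimedean places.** `ZES.FinStatement` with the archimedean terms; proof
by the case split: σ >= 0 wlog, one of the sums is at least one third of the whole bracket: if it is the
archimedean one, ArfStatement for 3 σ (with x_i restricted to nothing: Φ is nonempty, all x_i are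
given), otherwise FinStatement with 3 σ for the two finite sums together (2/3 of the bracket), l a
common prime. -/
def ArgStatement : Prop :=
  ∀ (g : ℕ) (σ : ℝ) (G : ℕ → ℕ), ∃ l : ℕ, l.Prime ∧ Odd l ∧ ∀ c d : ℕ, 0 < c → ∃ B : ℕ,
    ∀ (K : Type) [Field K] [NumberField K], Module.finrank ℚ K ≤ d →
    ∀ (φ : K →+* ℂ) (τ : Matrix (Fin g) (Fin g) ℂ), Siegel τ →
    ∀ z : Fin g → ℂ, (∃ N : ℕ, 0 < N ∧ InLat τ (fun i => (N : ℂ) * z i)) →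
    ∀ (S T : Finset (NumberField.FinitePlace K)) (ev t m : NumberField.FinitePlace K → ℕ)
      (x : Idx g → Ch g × Ch g → K)
      (Φ : Finset (NumberField.InfinitePlace K))
      (τ' : NumberField.InfinitePlace K → Matrix (Fin g) (Fin g) ℂ)
      (γ' : NumberField.InfinitePlace K → Idx g → Fin g → ℂ)
      (h : NumberField.InfinitePlace K → Fin g → ℤ) (lam : NumberField.InfinitePlace K → ℝ),
    (∀ i : Idx g, (S.Nonempty ∨ Φ.Nonempty) ∨ i.2 = 0 → x i ≠ 0 ∧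
      ∃ μ : ℂ, ∀ ab, φ (x i ab) = μ * Vab τ ab.1 ab.2 (gam τ z l i)) →
    (∀ v ∈ T, v.val 2 = 1 ∧ ∀ k : ℤ, PC v.val (x (c * k, 0, 0)) (x 0)) →
    (∀ v ∈ S, v.val 2 = 1 ∧ 1 ≤ ev v ∧ 1 ≤ t v ∧ 1 ≤ m v ∧ m v ≤ G (t v) ∧
      (∀ k : ℤ, SZG.CM v.val (x ((m v : ℤ) * k, 0, 0)) (x 0)) ∧
      ∃ p q : Fin g → ℤ, (∃ i, ¬ (l : ℤ) ∣ p i ∨ ¬ (l : ℤ) ∣ q i) ∧
        ∀ u : ℤ, SZG.TC v.val ((qv v ^ ev v)⁻¹) (x (u • ((0, p, q) : Idx g))) (x 0)) →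
    ArcData x Φ τ' γ' h lam →
    Real.log (Height.mulHeight (x 0))
      ≤ σ * (∑ v ∈ T, lN v + ∑ v ∈ S, (ev v : ℝ) / (t v : ℝ) * lN v
        + ∑ w ∈ Φ, lam w) →
    (∃ M : ℕ, 1 ≤ M ∧ M ≤ B ∧ InLat τ (fun i => (M : ℂ) * z i)) ∨
    (S.Nonempty ∨ Φ.Nonempty) ∧ ∃ W : Submodule ℂ (Fin g → ℂ), W ≠ ⊥ ∧ W ≠ ⊤ ∧ SubAV τ W ∧
      (∃ M : ℕ, 1 ≤ M ∧ M ≤ B ∧ ∃ u ∈ W, InLat τ (M • z - u)) ∧
      ∃ k : ℕ, 1 ≤ k ∧ k ≤ B ∧ ∀ v : Fin g → ℂ,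
        (∀ f ∈ RR τ k, (∀ w ∈ W, f w = 0) → fderiv ℂ f 0 v = 0) → v ∈ W

end Pool.Agent.ARC
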