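import Pool.Agent.ARC.StmtsP

/-!
# Squad ARC, block U: an arbitrary short period instead of a real direction

At the place w the degenerate direction is a nonzero period `u = P + tau Q` with
`lam * H(u,u) <= 1`, `H(u,w) = conj(u) (Im tau)^-1 w` (the Riemann form); for `Q = 0` it is the case of
StmtsP. METHOD (spaces TN of ZES, `V` Euclidean, theta functions of order n = 8 l^2, norm
`|F(x)| exp(- pi n |x|^2/2)`): translation by u/n acts on TN n as an isometry with eigenvalues the n-th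
roots of unity; the eigenspaces have dimension n^(g-1) (translation by a period u1/n with
`Im <u,u1> = 1` permutes them); an eigenfunction of class kappa has, on the line `x + s u`, only the
frequencies j = kappa mod n, and `|g_j| <= S exp(.. - pi (j + n Im<u,x>)^2/(n |u|^2))`. In the
determinant at most n^(g-1) rows can be in one class.

Rules as in `ARC/Stmts.lean`; file `Pool/Agent/HelperNN_ARC/XXX.lean`, import `Pool.Agent.ARC.StmtsU`.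
-/

set_option autoImplicit false

namespace Pool.Agent.ARC

open scoped BigOperators InnerProductSpace
open Pool.Agent.THS Pool.Agent.ZES
open Pool.Agent.SZG (Ch Idx gam QS WX Wf Xf Mp FF Bx Row lft Zz IM)

/-! ### Definitions -/

/-- The Riemann form `H(u,w) = conj(u) (Im tau)^-1 w`. -/
noncomputable def HY {g : ℕ} (τ : Matrix (Fin g) (Fin g) ℂ) (u w : Fin g → ℂ) : ℂ :=
  ∑ i, ∑ j, (starRingEnd ℂ) (u i) * (((τ.map Complex.im)⁻¹ i j : ℝ) : ℂ) * w j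

/-- The symplectic pairing of `P + tau Q` and `x + tau y`. -/
def sy {g : ℕ} (P Q : Fin g → ℤ) (x y : Fin g → ℝ) : ℝ :=
  ∑ i, ((P i : ℝ) * y i - (Q i : ℝ) * x i)

/-- Translation by `η` on functions of order `n`:
`F (x + η) exp (- pi n (<η,x> + |η|^2/2))`. -/
noncomputable def tv {V : Type} [NormedAddCommGroup V] [InnerProductSpace ℂ V] (n : ℕ) (η : V)
    (F : V → ℂ) : V → ℂ := fun x => F (x + η) * (al (Real.pi * (n : ℝ)) η x)⁻¹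

/-- `|F(x)| <= S exp (pi n |x|^2/2)`. -/
def NB {V : Type} [NormedAddCommGroup V] [InnerProductSpace ℂ V] (n : ℕ) (S : ℝ) (F : V → ℂ) :
    Prop := ∀ x, ‖F x‖ ≤ S * Real.exp (Real.pi * (n : ℝ) * ‖x‖ ^ 2 / 2)

/-- `exp (2 pi i κ/n)`. -/
noncomputable def rt (n : ℕ) (κ : ℕ) : ℂ :=
  Complex.exp (2 * Real.pi * Complex.I * (κ : ℂ) / (n : ℂ))

/-- `u/n`. -/
noncomputable def fr {V : Type} [NormedAddCommGroup V] [InnerProductSpace ℂ V] (n : ℕ) (u : V) : V :=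
  ((n : ℂ)⁻¹) • u

/-! ### Theta functions -/

/-- **Row TV1** (the translation operators). PROOF. `al a η (x + y) = al a η x * exp (a <η,y>)`.
(1) for ω ∈ L: `tv n η F (x + ω) = χ ω^n al(pi n) ω (x + η) F (x + η)/al(pi n) η (x + ω)
= χ ω^n al(pi n) ω x * exp (pi n (<ω,η> - <η,ω>)) * tv n η F x`, and
`pi n (<ω,η> - <η,ω>) = 2 pi i Im <ω, n η>`, with `exp (2 pi i Im <ω,ω'>) = 1` for ω, ω' ∈ L (LAT.mul for
(ω,ω') and (ω',ω), `Im <ω',ω> = - Im <ω,ω'>`, χ <> 0). Differentiable: product of differentiable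
functions (`inner ℂ η x` is continuous linear in x). (2) `‖x + η‖^2 = ‖x‖^2 + 2 Re <η,x> + ‖η‖^2`, so
`‖(al (pi n) η x)⁻¹‖ exp (pi n ‖x+η‖^2/2) = exp (pi n ‖x‖^2/2)`. (3) both sides are multiples of
`F (x + η + η')`; the exponents differ by `pi n (<η,η'> - <η',η>) = 2 pi i n Im <η,η'>`.
(4) `tv n (η + s η) = tv n η (tv n (s η) F)`, the pairing of η and `s η` is real for real s:
`(t+1) • η = t • η + η`; induction. (5) definition of TN. (6) clear. -/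
def Tv1Stmt : Prop :=
  ∀ (V : Type) [NormedAddCommGroup V] [InnerProductSpace ℂ V] (L : AddSubgroup V) (χ : V → ℂ),
    LAT L χ → ∀ n : ℕ, 1 ≤ n →
    (∀ η : V, (n : ℂ) • η ∈ L → ∀ F ∈ TN L χ n, tv n η F ∈ TN L χ n) ∧
    (∀ (η : V) (S : ℝ) (F : V → ℂ), NB n S F → NB n S (tv n η F)) ∧
    (∀ (η η' : V) (F : V → ℂ) (x : V), tv n η (tv n η' F) x
      = Complex.exp (2 * Real.pi * Complex.I * (n : ℂ) * ((inner ℂ η η').im : ℂ))
        * tv n η' (tv n η F) x) ∧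
    (∀ (η : V) (t : ℕ) (F : V → ℂ), (tv n η)^[t] F = tv n ((t : ℂ) • η) F) ∧
    (∀ ω ∈ L, ∀ F ∈ TN L χ n, ∀ x, tv n ω F x = χ ω ^ n * F x) ∧
    (∀ (η : V) (F G : V → ℂ) (c : ℂ), tv n η (F + c • G) = tv n η F + c • tv n η G)

/-- **Row EIG** (equal eigenspaces; linear algebra). PROOF. `E κ` = eigenspace of U for `ζ^κ`. A maps E κ
into E (κ+1) (`U (A w) = ζ A (U w) = ζ^(κ+1) A w`) and is injective, so the dimensions do not decrease;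
`E (κ + n) = E κ`, so they are all equal. The n numbers `ζ^0, .., ζ^(n-1)` are distinct, the eigenspaces
are independent (`Module.End.eigenspaces_iSupIndep`), so the sum of their dimensions is
`<= finrank W`. -/
def EigStmt : Prop :=
  ∀ (W : Type) [AddCommGroup W] [Module ℂ W] [Module.Finite ℂ W] (U A : W →ₗ[ℂ] W) (n : ℕ)
    (ζ : ℂ), 1 ≤ n → IsPrimitiveRoot ζ n → Function.Injective A →
    (∀ w, U (A w) = ζ • A (U w)) → ∀ κ : ℕ,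
    n * Module.finrank ℂ (Module.End.eigenspace U (ζ ^ κ)) ≤ Module.finrank ℂ W

/-- **Row EGD** (eigenspaces in TN; uses TV1, EIG). PROOF. `W = TN L χ n`, `U = tv n (u/n)`,
`A = tv n (u1/n)` restricted to W (TV1 (1), (6)). By TV1 (3) with `Im <u/n, u1/n> = 1/n^2`:
`U A = exp (2 pi i/n) A U`. A is injective: `A^[n] = tv n u1 = χ(u1)^n` (TV1 (4), (5)), not 0. `rt n 1` is a
primitive n-th root, `rt n κ = (rt n 1)^κ`. EIG: `n * dim <= n^g = n * n^(g-1)` (g >= 1 because u <> 0 in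
a space.. ; if g = 0 then n * dim <= 1, and `n^(0-1) = 1 >= dim`). The Finset of functions in the
statement is contained in the image of the eigenspace. -/
def EgdStmt : Prop :=
  ∀ (V : Type) [NormedAddCommGroup V] [InnerProductSpace ℂ V] (L : AddSubgroup V) (χ : V → ℂ),
    LAT L χ → ∀ (n g : ℕ), 1 ≤ n → Module.Finite ℂ ↥(TN L χ n) →
    Module.finrank ℂ ↥(TN L χ n) ≤ n ^ g → ∀ u ∈ L, ∀ u1 ∈ L, (inner ℂ u u1).im = 1 →
    ∀ (κ : ℕ) (S : Submodule ℂ (V → ℂ)), S ≤ TN L χ n →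
      (∀ F ∈ S, tv n (fr n u) F = rt n κ • F) →
      Module.Finite ℂ S ∧ Module.finrank ℂ S ≤ n ^ (g - 1)

/-- **Row DCP** (decomposition into eigenfunctions; uses TV1). PROOF. η = u/n, `n • η = u ∈ L`.
`F_κ = (1/n) sum_(t < n) exp (- 2 pi i κ t/n) tv n (t η) F`. `tv n (t η) F ∈ TN` (n t η = t u ∈ L) with the
bound S (TV1), so the same for F_κ. `tv n η (tv n (t η) F) = tv n ((t+1) η) F` and
`tv n (n η) F = tv n u F = χ(u)^n F = F` (n even, χ^2 = 1): so `tv n η F_κ = exp (2 pi i κ/n) F_κ`.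
`sum_κ F_κ = F` (orthogonality: sum over κ of exp(- 2 pi i κ t/n) is n for t = 0, else 0). -/
def DcpStmt : Prop :=
  ∀ (V : Type) [NormedAddCommGroup V] [InnerProductSpace ℂ V] (L : AddSubgroup V) (χ : V → ℂ),
    LAT L χ → ∀ n : ℕ, 1 ≤ n → Even n → ∀ u ∈ L, ∀ (S : ℝ), ∀ F ∈ TN L χ n, NB n S F →
    ∃ Fk : Fin n → V → ℂ, (∀ κ, Fk κ ∈ TN L χ n ∧ NB n S (Fk κ) ∧
      tv n (fr n u) (Fk κ) = rt n κ.val • Fk κ) ∧ ∀ x, F x = ∑ κ, Fk κ x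

/-- **Row DC1** (decay, one variable). PROOF. G has period 1 (n-th power of the first relation) and is
entire. For integers j let `g_j = ∫ over [0,1] of G(σ) exp(- 2 pi i j σ) dσ`; by Cauchy for the rectangle
with corners 0, 1, 1 + i θ, i θ (the vertical sides cancel by periodicity)
`g_j = ∫ G(σ + i θ) exp(- 2 pi i j (σ + i θ)) dσ` for all real θ, so
`‖g_j‖ <= A exp (2 pi θ (c + j) + pi n ρ θ^2)`; θ = - (j + c)/(n ρ): `‖g_j‖ <= A exp(- pi (j+c)^2/(n ρ))`.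
`g_j = 0` if n does not divide j - κ (shift of the integral by 1/n). The Fourier series converges
absolutely, so `G 0 = sum_j g_j` (`hasSum_fourier_series_of_summable` on AddCircle 1, G restricted to the
reals is continuous; or ZES rows FSH, FUQ for g = 1). The j with n | j - κ are `j0 + n m`; those with
`j + c >= D` are, in increasing order, `X0 + n m`, m >= 0, X0 >= D, and `(X0 + n m)^2 >= D^2 + n^2 m^2`,
`n^2 m^2/(n ρ) >= m`: their sum is `<= exp(- pi D^2/(n ρ)) sum_m exp(- pi m) <= 2 exp(- pi D^2/(n ρ))`; the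
same for `j + c <= - D`. -/
def Dc1Stmt : Prop :=
  ∀ (n : ℕ) (κ : ℤ) (G : ℂ → ℂ) (A c ρ D : ℝ), 1 ≤ n → 0 ≤ A → 0 < ρ → ρ ≤ 1 → 0 ≤ D →
    Differentiable ℂ G →
    (∀ s : ℂ, G (s + 1 / (n : ℂ)) = Complex.exp (2 * Real.pi * Complex.I * (κ : ℂ) / (n : ℂ)) * G s) →
    (∀ s : ℂ, ‖G s‖ ≤ A * Real.exp (2 * Real.pi * s.im * c + Real.pi * (n : ℝ) * ρ * s.im ^ 2)) →
    (∀ j : ℤ, (n : ℤ) ∣ j - κ → D ≤ |(j : ℝ) + c|) →
    ‖G 0‖ ≤ 4 * A * Real.exp (-(Real.pi * D ^ 2 / ((n : ℝ) * ρ)))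

/-- **Row DEC** (decay of eigenfunctions; uses DC1). PROOF. `G s = F (x + s • u) exp (- pi n (s <u,x> +
s^2 ‖u‖^2/2))`, entire. `tv n (u/n) F` at `x + s u`: `F (x + (s + 1/n) u)
= rt n κ * al (pi n) (u/n) (x + s u) * F (x + s u)`, `al (pi n) (u/n) (x + s u) = exp (pi <u,x> + pi s ‖u‖^2 +
pi ‖u‖^2/(2 n))`, and this is exactly the quotient of the two exponentials: `G (s + 1/n) = rt n κ * G s`.
Growth, s = σ + i θ: `‖x + s u‖^2/2 - Re (s <u,x>) - Re (s^2) ‖u‖^2/2 = ‖x‖^2/2 + 2 θ Im <u,x> + θ^2 ‖u‖^2`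
(`‖x + s u‖^2 = ‖x‖^2 + 2 Re (s <x,u>) + |s|^2 ‖u‖^2`, `<x,u> = conj <u,x>`). So DC1 applies with
`A = S exp (pi n ‖x‖^2/2)`, `c = n Im <u,x>`, ρ = ‖u‖^2. -/
def DecStmt : Prop :=
  ∀ (V : Type) [NormedAddCommGroup V] [InnerProductSpace ℂ V] (n κ : ℕ) (S D : ℝ) (u : V)
    (F : V → ℂ), 1 ≤ n → 0 ≤ S → 0 ≤ D → u ≠ 0 → ‖u‖ ^ 2 ≤ 1 → Differentiable ℂ F → NB n S F →
    tv n (fr n u) F = rt n κ • F → ∀ x : V,
    (∀ j : ℤ, (n : ℤ) ∣ j - (κ : ℤ) → D ≤ |(j : ℝ) + (n : ℝ) * (inner ℂ u x).im|) →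
    ‖F x‖ ≤ 4 * S * Real.exp (Real.pi * (n : ℝ) * ‖x‖ ^ 2 / 2)
      * Real.exp (-(Real.pi * D ^ 2 / ((n : ℝ) * ‖u‖ ^ 2)))

/-- **Row MNB** (determinant lemma with classes of small rank). PROOF. `det (sum_κ M_κ)` is the sum over
`f : ι → Γ` of the determinants of the matrices with rows `Mk (f i) i` (multilinearity in the rows,
`MultilinearMap.map_sum`, `Matrix.detRowAlternating`). If some κ has more than q preimages under f, the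
corresponding rows are more than q vectors of a space of dimension `<= q`: linearly dependent, the
determinant is 0. Otherwise at most `q * card sm` rows have `f i ∈ sm`; the entries of the others are
`<= ε ω χ`: Leibniz formula, `ε^(number) <= ε^(card ι - q card sm)`. There are `(card Γ)^(card ι)` f. -/
def MnbStmt : Prop :=
  ∀ (ι Γ : Type) [Fintype ι] [DecidableEq ι] [Fintype Γ] [DecidableEq Γ] (q : ℕ) (sm : Finset Γ)
    (Mk : Γ → ι → ι → ℂ) (ω χ : ι → ℝ) (ε : ℝ), 0 ≤ ε → ε ≤ 1 → (∀ i, 0 ≤ ω i) →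
    (∀ j, 0 ≤ χ j) → (∀ κ, Module.finrank ℂ (Submodule.span ℂ (Set.range (Mk κ))) ≤ q) →
    (∀ κ i j, ‖Mk κ i j‖ ≤ ω i * χ j) →
    (∀ κ, κ ∉ sm → ∀ i j, ‖Mk κ i j‖ ≤ ε * (ω i * χ j)) →
    ‖(Matrix.of fun i j => ∑ κ, Mk κ i j).det‖
      ≤ ((Fintype.card ι).factorial : ℝ) * (Fintype.card Γ : ℝ) ^ Fintype.card ι
        * ε ^ (Fintype.card ι - q * sm.card) * ((∏ i, ω i) * ∏ j, χ j)

/-- **Row GAV** (the gauge with its metric; uses ZES.QmxStmt, ZES.PqiStmt, ZES.AliStmt; extend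
`Helper82_ZES/GAU.lean`). PROOF. The data of GAU: Λ from QMX, `β x = (pi/2) sum x_i Y⁻¹_ij x_j`. The inner
product is QMX. For `Im x = Y y`, `x = a + i Y y`: `Re β = (pi/2)(a Y⁻¹ a - y Y y)` and
`‖Λ x‖^2 = a Y⁻¹ a + y Y y`, so `n Re β = pi n ‖Λ x‖^2/2 - pi n Yq y`. The pairing: with τ = X + i Y,
`P + τ Q = (P + X Q) + i Y Q`, `w = (x + X y) + i Y y`, the imaginary part of `conj(.) Y⁻¹ (.)` is
`(P + X Q).y - Q.(x + X y) = P.y - Q.x` (X symmetric; as ALI (2)). -/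
def GavStmt : Prop :=
  ∀ (g : ℕ) (τ : Matrix (Fin g) (Fin g) ℂ), Siegel τ →
    ∃ (Λ : (Fin g → ℂ) ≃L[ℂ] EuclideanSpace ℂ (Fin g))
      (L : AddSubgroup (EuclideanSpace ℂ (Fin g))) (χ : EuclideanSpace ℂ (Fin g) → ℂ)
      (β : (Fin g → ℂ) → ℂ), LAT L χ ∧ Differentiable ℂ β ∧
      (∀ v, v ∈ L ↔ InLat τ (Λ.symm v)) ∧
      (∀ (n : ℕ) (F : (Fin g → ℂ) → ℂ),
        F ∈ RR τ n ↔ (fun v => F (Λ.symm v) * Complex.exp ((n : ℂ) * β (Λ.symm v))) ∈ TN L χ n) ∧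
      (∀ x y : Fin g → ℂ, inner ℂ (Λ x) (Λ y) = HY τ x y) ∧
      (∀ (n : ℕ) (x : Fin g → ℂ) (y : Fin g → ℝ), (∀ i, (x i).im = Yv τ y i) →
        ‖Complex.exp ((n : ℂ) * β x)‖
          = Real.exp (Real.pi * (n : ℝ) * ‖Λ x‖ ^ 2 / 2 - Real.pi * (n : ℝ) * Yq τ y)) ∧
      ∀ (P Q : Fin g → ℤ) (x y : Fin g → ℝ),
        (HY τ (pr τ P Q) (fun i => (x i : ℂ) + ∑ j, τ i j * (y j : ℂ))).im = sy P Q x y

/-- **Row FFB** (sup bound and order of FF; uses SUP, SZG.FqpStmt, SZG.FdfStmt). PROOF.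
`FF τ l p q a w = exp(16 pi i q.w) Thc τ a (2 W)`, `W = l w + (p + τ q)/l`, `Im W = Y (l y + q/l)`,
`Yq (l y + q/l) = l^2 Yq y + 2 q.Y y + Yq q/l^2`, `|exp(16 pi i q.w)| = exp(- 16 pi q.Y y)`; SUP. The second
claim is FQP and FDF (`2 * (4 * l^2) = 8 l^2`). -/
def FfbStmt : Prop :=
  ∀ (g : ℕ) (τ : Matrix (Fin g) (Fin g) ℂ), Siegel τ → ∀ (l : ℕ), 0 < l →
    ∀ (p q : Fin g → ℤ) (a : Ch g),
    (∀ (w : Fin g → ℂ) (y : Fin g → ℝ), (∀ i, (w i).im = Yv τ y i) →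
      ‖FF τ l p q a w‖ ≤ 2 ^ g * t0 τ * Real.exp (8 * Real.pi * Yq τ (fun m => (q m : ℝ)) / (l : ℝ) ^ 2)
        * Real.exp (8 * Real.pi * (l : ℝ) ^ 2 * Yq τ y)) ∧
    FF τ l p q a ∈ RR τ (8 * l ^ 2)

/-- **Row SYP** (symplectic complement of a primitive vector). PROOF. `m` = gcd of all P_i, Q_i (>= 1),
`P = m P'`, `Q = m Q'`; Bezout for the coordinates of (P',Q') (gcd 1: `Finset.gcd_eq_..`, or
`Int.gcd`/ideal generated by the coordinates is everything, `Ideal.span`, `Submodule.mem_span_range_iff_exists_fun`). -/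
def SypStmt : Prop :=
  ∀ (g : ℕ) (P Q : Fin g → ℤ), ¬ (P = 0 ∧ Q = 0) →
    ∃ (m : ℕ) (P' Q' P1 Q1 : Fin g → ℤ), 1 ≤ m ∧ (∀ i, P i = (m : ℤ) * P' i) ∧
      (∀ i, Q i = (m : ℤ) * Q' i) ∧ ∑ i, (P' i * Q1 i - Q' i * P1 i) = 1

/-- **Row AMY** (OUTPUT: minors of the matrix of theta values; uses GAV, DCP, DEC, EGD, MNB, FFB,
ZES.TrfStmt). PROOF. n = 8 l^2 (even), GAV: Λ, L, χ, β; TRF: dimension of TN n `<= n^g`. `u = Λ (pr τ P Q)`,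
`u1 = Λ (pr τ P1 Q1)` in L, `‖u‖^2 = (HY ..).re <= 1/lam <= 1` (GAV), `Im <u,u1> = sy P Q P1 Q1 = 1` (so
u <> 0). `F_i = FF ..` of row i, `F'_i v = F_i (Λ.symm v) exp (n β (Λ.symm v)) ∈ TN n` (FFB, GAV), NB n S_i
with `S_i = 2^g t0 exp (8 pi Yq q_i/l^2)` (FFB and the metric: `8 pi l^2 Yq = pi n Yq`; for every x ∈ ℂ^g
there is y with Im x = Y y, Y invertible). DCP: `F'_i = sum_κ F_(i,κ)`. Column j: `v_j = Λ w_j`,
`Im <u,v_j> = sy P Q x_j y_j = N + δ`, `|n δ| <= 8 l^2/(2 l) = 4 l`. Call κ small if some integer J with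
`n | J - κ` has `|J| < 4 l (L+1)`: at most `8 l (L+1)` classes, and `8 l (L+1) n^(g-1) = (L+1) 8^g l^(2g-1)`
(g >= 1, because of the pairing 1). κ not small: for n | J - κ: `|J + n N| >= 4 l (L+1)`,
`|J + n Im <u,v_j>| >= 4 l L =: D`, DEC: `‖F_(i,κ) v_j‖ <= 4 S_i exp (pi n ‖v_j‖^2/2) exp (- pi D^2/(n ‖u‖^2))`
and `pi 16 l^2 L^2/(8 l^2 ‖u‖^2) = 2 pi L^2/‖u‖^2 >= 2 pi lam L^2`. MNB with Γ = Fin n, `q = n^(g-1)`
(EGD: the rows `Mk κ i` are the images of functions of the eigenspace under a linear map, so their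
span has dimension `<= n^(g-1)`), `Mk κ i j = F_(i,κ) v_j exp (- n β w_j)`, `ω i = 4 2^g exp (8 pi Yq q_i/l^2)`,
`χ j = t0 exp (8 pi l^2 Yq y_j)`, `ε = exp (- 2 pi lam L^2)`. (The exponent in MNB is `R - n^(g-1) card sm`,
at least the one below; ε <= 1.) -/
def AmyStmt : Prop :=
  ∀ (g : ℕ) (τ : Matrix (Fin g) (Fin g) ℂ), Siegel τ → ∀ l : ℕ, 0 < l →
    ∀ (lam : ℝ) (P Q P1 Q1 : Fin g → ℤ) (L : ℕ), 1 ≤ lam → 1 ≤ L →
    ∑ i, (P i * Q1 i - Q i * P1 i) = 1 → lam * (HY τ (pr τ P Q) (pr τ P Q)).re ≤ 1 →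
    ∀ (R : ℕ) (r : Fin R → Row g l) (w : Fin R → Fin g → ℂ) (x y : Fin R → Fin g → ℝ),
    (∀ j i, w j i = (x j i : ℂ) + ∑ m, τ i m * (y j m : ℂ)) →
    (∀ j, ∃ N : ℤ, |sy P Q (x j) (y j) - (N : ℝ)| ≤ 1 / (2 * (l : ℝ))) →
    ‖(Matrix.of fun i j => FF τ l (lft (r i).2).2.1 (lft (r i).2).2.2 (r i).1 (w j)).det‖
      ≤ (R.factorial : ℝ) * (8 * (l : ℝ) ^ 2) ^ R * (4 * 2 ^ g) ^ R
      * Real.exp (-(2 * Real.pi * lam * (L : ℝ) ^ 2)) ^ (R - (L + 1) * (8 ^ g * l ^ (2 * g - 1)))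
      * ((∏ i : Fin R,
            Real.exp (8 * Real.pi * Yq τ (fun m => ((lft (r i).2).2.2 m : ℝ)) / (l : ℝ) ^ 2))
        * ∏ j : Fin R, t0 τ * Real.exp (8 * Real.pi * (l : ℝ) ^ 2 * Yq τ (y j)))

/-! ### Minors, output, assembly -/

/-- **Row AMZ** (minors at a place w in Φ, even columns; uses TGW, AMY; the proof of AMW with AMY
instead of AMX). PROOF. ψ(det) = det ψ (`RingHom.map_det`). By TGW
`ψ (IM i j) = ν (k j) * η b_i * FF τ l p' q' a (2 k_j z)`: pull the factors out of rows and columns; AMY for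
the rows `(a_i, A b_i)` and the points `2 k_j z`, `x_j = 2 k_j x`, `y_j = 2 k_j y` (Yq is homogeneous of
degree 2, sy of degree 1); the weights are put together by the last two claims of TGW
(`Im z = Y y` follows from `z = x + τ y`). -/
def AmzStmt : Prop :=
  ∀ (g : ℕ) (K : Type) [Field K] (l E : ℕ) (L0 : AddSubgroup (Idx g)) (c : Idx g → K)
    (e : Idx g → Idx g → K) (s : K) (T : Idx g → Ch g → K) (x' : Idx g → Ch g × Ch g → K),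
    0 < l → Odd l → QS K (Idx g) g E L0 c e s T x' →
    (∀ P Q : Fin g → ℤ, ((0, fun i => (l : ℤ) * P i, fun i => (l : ℤ) * Q i) : Idx g) ∈ L0) →
    ∀ x : Idx g → Ch g × Ch g → K, (∀ i, ∃ κ : K, κ ≠ 0 ∧ ∀ ab, x' i ab = κ * x (i + i) ab) →
    ∀ (ψ : K →+* ℂ) (v : AbsoluteValue K ℝ), (∀ y, v y = ‖ψ y‖) →
    ∀ (τ : Matrix (Fin g) (Fin g) ℂ) (γ : Idx g → Fin g → ℂ), AD ψ τ γ x →
    ∀ (lam : ℝ) (P Q P1 Q1 : Fin g → ℤ) (X Y : Fin g → ℝ) (L : ℕ), 1 ≤ lam → 1 ≤ L →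
    ∑ i, (P i * Q1 i - Q i * P1 i) = 1 → lam * (HY τ (pr τ P Q) (pr τ P Q)).re ≤ 1 →
    (∀ r, γ (Zz g) r = (X r : ℂ) + ∑ m, τ r m * (Y m : ℂ)) →
    ∀ (R : ℕ) (r : Fin R → Row g l) (k : Fin R → ℕ),
    (∀ j, ∃ N : ℤ, |((2 * k j : ℕ) : ℝ) * sy P Q X Y - (N : ℝ)| ≤ 1 / (2 * (l : ℝ))) →
    v (IM l e T r (fun j => 2 * k j)).det
      ≤ (R.factorial : ℝ) * (8 * (l : ℝ) ^ 2) ^ R * (4 * 2 ^ g) ^ R
      * Real.exp (-(2 * Real.pi * lam * (L : ℝ) ^ 2)) ^ (R - (L + 1) * (8 ^ g * l ^ (2 * g - 1)))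
      * ((∏ i : Fin R, Wf v E e (lft (r i).2))
        * ∏ j : Fin R, nv v (T 0) * Wf v E e ((l * (2 * k j)) • Zz g))

/-- **Row DAG** (OUTPUT; uses AMZ, PFA, SZG.DtvStmt, SZG.WprStmt, SZG.WtxStmt; as DAA, DAF). PROOF. σ >= 0
wlog. L = natural number >= σ + 1, `n = 2 (L+1) 8^g`, `R = n l^(2g-1) > 0`, so
`R - (L+1) 8^g l^(2g-1) = R/2`. w = y from WPR for the columns `2 k j`. Infinite places v ∉ Φ: DTV
(`v 2 = 2`), to the power N = 2E, p v = 1; v ∈ Φ: AMZ with ψ = v.embedding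
(`NumberField.InfinitePlace.norm_embedding_eq`), `p v = exp(2 pi lam_v L^2 R/2)`. PFA with
`C' = R! (8 l^2 4 2^g)^R` (`>= R! 2^(g R)`), m = g R, r = R, Y = T 0. Logarithms
(p v >= 1, mult >= 1): `pi L^2 R sum_Φ lam <= d (log C' + g R log 2) + R log H(T 0)`, so
`sum_Φ lam <= (pi L^2 - σ) sum_Φ lam <= C + d (..)/R =: S0` (at least 0). -/
def DagStmt : Prop :=
  ∀ (g : ℕ) (σ : ℝ), ∃ n : ℕ, 0 < n ∧ ∀ l : ℕ, l.Prime → Odd l → ∀ (d : ℕ) (C : ℝ), ∃ S0 : ℝ,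
    ∀ (K : Type) [Field K] [NumberField K], Module.finrank ℚ K ≤ d →
    ∀ (E : ℕ) (L0 : AddSubgroup (Idx g)) (c : Idx g → K) (e : Idx g → Idx g → K) (s : K)
      (T : Idx g → Ch g → K) (x' : Idx g → Ch g × Ch g → K), QS K (Idx g) g E L0 c e s T x' →
    (∀ P Q : Fin g → ℤ, ((0, fun i => (l : ℤ) * P i, fun i => (l : ℤ) * Q i) : Idx g) ∈ L0) →
    ∀ x : Idx g → Ch g × Ch g → K, (∀ i, ∃ κ : K, κ ≠ 0 ∧ ∀ ab, x' i ab = κ * x (i + i) ab) →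
    ∀ (Φ : Finset (NumberField.InfinitePlace K))
      (τ : NumberField.InfinitePlace K → Matrix (Fin g) (Fin g) ℂ)
      (γ : NumberField.InfinitePlace K → Idx g → Fin g → ℂ)
      (P Q P1 Q1 : NumberField.InfinitePlace K → Fin g → ℤ)
      (X Y : NumberField.InfinitePlace K → Fin g → ℝ) (lam : NumberField.InfinitePlace K → ℝ),
    (∀ w ∈ Φ, AD w.embedding (τ w) (γ w) x ∧ 1 ≤ lam w ∧
      ∑ i, (P w i * Q1 w i - Q w i * P1 w i) = 1 ∧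
      lam w * (HY (τ w) (pr (τ w) (P w) (Q w)) (pr (τ w) (P w) (Q w))).re ≤ 1 ∧
      ∀ r, γ w (Zz g) r = (X w r : ℂ) + ∑ m, τ w r m * (Y w m : ℂ)) →
    Real.log (Height.mulHeight (T 0)) ≤ σ * ∑ w ∈ Φ, lam w + C →
    ∀ (r : Fin (n * l ^ (2 * g - 1)) → Row g l) (k : Fin (n * l ^ (2 * g - 1)) → ℕ),
    (∀ j, ∀ w ∈ Φ, ∃ N : ℤ,
      |((2 * k j : ℕ) : ℝ) * sy (P w) (Q w) (X w) (Y w) - (N : ℝ)| ≤ 1 / (2 * (l : ℝ))) →
    (IM l e T r (fun j => 2 * k j)).det ≠ 0 → ∑ w ∈ Φ, lam w ≤ S0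

/-- The data of the archimedean places: for w in Φ the period matrix `τ w`, the points `γ w i`, a
nonzero period `P + tau Q` and `lam w >= 0` with `lam H(P + tau Q, P + tau Q) <= 1`. -/
def ArcDataU {g : ℕ} {K : Type} [Field K] [NumberField K] (x : Idx g → Ch g × Ch g → K)
    (Φ : Finset (NumberField.InfinitePlace K))
    (τ : NumberField.InfinitePlace K → Matrix (Fin g) (Fin g) ℂ)
    (γ : NumberField.InfinitePlace K → Idx g → Fin g → ℂ)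
    (P Q : NumberField.InfinitePlace K → Fin g → ℤ) (lam : NumberField.InfinitePlace K → ℝ) : Prop :=
  ∀ w ∈ Φ, AD w.embedding (τ w) (γ w) x ∧ ¬ (P w = 0 ∧ Q w = 0) ∧ 0 ≤ lam w ∧
    lam w * (HY (τ w) (pr (τ w) (P w) (Q w)) (pr (τ w) (P w) (Q w))).re ≤ 1

/-- **Row ARK** (the archimedean theorem; uses DAG, DIR, ALX, FRZ, SYP, SZG.ThgStmt,
SZG.NorStmt, SZG.Ht2Stmt, SZG.RkdStmt, ZES.ZetStmt; the proof of ARF of StmtsP with SYP instead of HDL and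
the pairing `sy` instead of `dt`). PROOF. σ' = max σ 0, n from DAG (g, σ'). Let `l > n` be an odd prime, d
given. C = g d log 2 + σ' d, S0 from DAG; J from FRZ (g, 4 l^2); B1 from NOR (g, d, exp (σ' (max S0 0 + d)));
B2 from ZET (g, 4 l^2); B3 = Q^d for Q = 4 l (J+1) (DIR); `B = B1 + 2 B3 B2 + 2 B3 + 1`. Let K, .. be given,
Φ' = the w ∈ Φ with `lam w >= 1`; `sum_Φ lam <= sum_Φ' lam + d` (at most d infinite places). g = 0: every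
vector is in the lattice. For w ∈ Φ': SYP: `(P,Q) = m (P',Q')`; `pr τ P Q = m pr τ P' Q'`, so
`HY` of the latter is `HY/m^2`, and `lam HY' <= 1` too. `N γ_w(Z) = p + τ q`: X = p/N, Y = q/N. DIR for the
numbers `ξ w = sy P'_w Q'_w X_w Y_w`, w ∈ Φ' (card <= d): c0 with `|2 k c0 ξ - 2 k N| <= 2 J/(4 l (J+1))
<= 1/(2l)` for k <= J. Then exactly as in ARF: `z' = c0 z`, `x'' (k,p,q) = x (c0 k, p, q)`,
`γ'_w (k,p,q) = γ_w (c0 k, p, q)`, X' = c0 X, Y' = c0 Y; THG for z', x''; HT2; RKD for ι = Row g l,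
X = Fin (J+1), `f r k = Mp l e T (Zz g) (lft r.2) (2 k) r.1`, `R = n l^(2g-1)`; DAG or ALX, FRZ for the point
`2 z'`, `ZES.H19.van_int`, ZET. -/
def ArkStatement : Prop :=
  ∀ (g : ℕ) (σ : ℝ), ∃ n : ℕ, ∀ l : ℕ, l.Prime → Odd l → n < l → ∀ d : ℕ, ∃ B : ℕ,
    ∀ (K : Type) [Field K] [NumberField K], Module.finrank ℚ K ≤ d →
    ∀ (φ : K →+* ℂ) (τ : Matrix (Fin g) (Fin g) ℂ), Siegel τ →
    ∀ z : Fin g → ℂ, (∃ N : ℕ, 0 < N ∧ InLat τ (fun i => (N : ℂ) * z i)) →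
    ∀ x : Idx g → Ch g × Ch g → K, (∀ i, x i ≠ 0) →
    (∀ i, ∃ μ : ℂ, ∀ ab, φ (x i ab) = μ * Vab τ ab.1 ab.2 (gam τ z l i)) →
    ∀ (Φ : Finset (NumberField.InfinitePlace K))
      (τ' : NumberField.InfinitePlace K → Matrix (Fin g) (Fin g) ℂ)
      (γ' : NumberField.InfinitePlace K → Idx g → Fin g → ℂ)
      (P Q : NumberField.InfinitePlace K → Fin g → ℤ) (lam : NumberField.InfinitePlace K → ℝ),
    ArcDataU x Φ τ' γ' P Q lam →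
    Real.log (Height.mulHeight (x 0)) ≤ σ * ∑ w ∈ Φ, lam w →
    (∃ M : ℕ, 1 ≤ M ∧ M ≤ B ∧ InLat τ (fun i => (M : ℂ) * z i)) ∨
    ∃ W : Submodule ℂ (Fin g → ℂ), W ≠ ⊥ ∧ W ≠ ⊤ ∧ SubAV τ W ∧
      (∃ M : ℕ, 1 ≤ M ∧ M ≤ B ∧ ∃ u ∈ W, InLat τ (M • z - u)) ∧
      ∃ k : ℕ, 1 ≤ k ∧ k ≤ B ∧ ∀ v : Fin g → ℂ,
        (∀ f ∈ RR τ k, (∀ w ∈ W, f w = 0) → fderiv ℂ f 0 v = 0) → v ∈ W

/-- **The theorem, several archimedean places, arbitrary short periods** (ARL = helper40). -/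
def ArlStatement : Prop :=
  ∀ (g : ℕ) (σ : ℝ) (G : ℕ → ℕ), ∃ l : ℕ, l.Prime ∧ Odd l ∧ ∀ c d : ℕ, 0 < c → ∃ B : ℕ,
    ∀ (K : Type) [Field K] [NumberField K], Module.finrank ℚ K ≤ d →
    ∀ (φ : K →+* ℂ) (τ : Matrix (Fin g) (Fin g) ℂ), Siegel τ →
    ∀ z : Fin g → ℂ, (∃ N : ℕ, 0 < N ∧ InLat τ (fun i => (N : ℂ) * z i)) →
    ∀ (S T : Finset (NumberField.FinitePlace K)) (ev t m : NumberField.FinitePlace K → ℕ)
      (x : Idx g → Ch g × Ch g → K)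
      (Φ : Finset (NumberField.InfinitePlace K))
      (τ' : NumberField.InfinitePlace K → Matrix (Fin g) (Fin g) ℂ)
      (γ' : NumberField.InfinitePlace K → Idx g → Fin g → ℂ)
      (P Q : NumberField.InfinitePlace K → Fin g → ℤ) (lam : NumberField.InfinitePlace K → ℝ),
    (∀ i : Idx g, (S.Nonempty ∨ Φ.Nonempty) ∨ i.2 = 0 → x i ≠ 0 ∧
      ∃ μ : ℂ, ∀ ab, φ (x i ab) = μ * Vab τ ab.1 ab.2 (gam τ z l i)) →
    (∀ v ∈ T, v.val 2 = 1 ∧ ∀ k : ℤ, PC v.val (x (c * k, 0, 0)) (x 0)) →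
    (∀ v ∈ S, v.val 2 = 1 ∧ 1 ≤ ev v ∧ 1 ≤ t v ∧ 1 ≤ m v ∧ m v ≤ G (t v) ∧
      (∀ k : ℤ, SZG.CM v.val (x ((m v : ℤ) * k, 0, 0)) (x 0)) ∧
      ∃ p q : Fin g → ℤ, (∃ i, ¬ (l : ℤ) ∣ p i ∨ ¬ (l : ℤ) ∣ q i) ∧
        ∀ u : ℤ, SZG.TC v.val ((qv v ^ ev v)⁻¹) (x (u • ((0, p, q) : Idx g))) (x 0)) →
    ArcDataU x Φ τ' γ' P Q lam →
    Real.log (Height.mulHeight (x 0))
      ≤ σ * (∑ v ∈ T, lN v + ∑ v ∈ S, (ev v : ℝ) / (t v : ℝ) * lN v + ∑ w ∈ Φ, lam w) →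
    (∃ M : ℕ, 1 ≤ M ∧ M ≤ B ∧ InLat τ (fun i => (M : ℂ) * z i)) ∨
    (S.Nonempty ∨ Φ.Nonempty) ∧ ∃ W : Submodule ℂ (Fin g → ℂ), W ≠ ⊥ ∧ W ≠ ⊤ ∧ SubAV τ W ∧
      (∃ M : ℕ, 1 ≤ M ∧ M ≤ B ∧ ∃ u ∈ W, InLat τ (M • z - u)) ∧
      ∃ k : ℕ, 1 ≤ k ∧ k ≤ B ∧ ∀ v : Fin g → ℂ,
        (∀ f ∈ RR τ k, (∀ w ∈ W, f w = 0) → fderiv ℂ f 0 v = 0) → v ∈ W

end Pool.Agent.ARC
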